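import Pool.Agent.Y462.Germ2

set_option autoImplicit false
set_option linter.unusedSectionVars false
set_option linter.style.haveILetI false
set_option maxHeartbeats 1000000

open MvPolynomial

namespace Pool.Agent.Y462.Germ

open Box

variable {n : ℕ}

theorem cc_mem_mm {N : ℕ} {p : MvPolynomial (Fin n) ℂ} (hp : p ∈ idealOfVars (Fin n) ℂ ^ N) :
    cc n p ∈ mm n ^ N := by
  have h1 : (idealOfVars (Fin n) ℂ).map (cc n) ≤ mm n := by
    rw [Ideal.map_le_iff_le_comap]
    unfold idealOfVars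
    rw [Ideal.span_le]
    rintro _ ⟨i, rfl⟩
    rw [SetLike.mem_coe, Ideal.mem_comap, cc_X]
    exact Ideal.subset_span ⟨i, rfl⟩
  have h2 := Ideal.mem_map_of_mem (cc n) hp
  rw [Ideal.map_pow] at h2
  exact Ideal.pow_right_mono h1 N h2

theorem linX_mem (M : Matrix (Fin n) (Fin n) ℂ) (i : Fin n) :
    (∑ j, M i j • X j : MvPolynomial (Fin n) ℂ) ∈ idealOfVars (Fin n) ℂ := by
  refine Ideal.sum_mem _ fun j _ => ?_
  rw [MvPolynomial.smul_eq_C_mul]
  exact Ideal.mul_mem_left _ _ (Ideal.subset_span ⟨j, rfl⟩)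

theorem sum_mul_smul (Q R : Matrix (Fin n) (Fin n) ℂ) {V : Type*} [AddCommGroup V] [Module ℂ V]
    (v : Fin n → V) (i : Fin n) :
    ∑ j, Q i j • ∑ k, R j k • v k = ∑ k, (Q * R) i k • v k := by
  simp_rw [Finset.smul_sum, smul_smul]
  rw [Finset.sum_comm]
  refine Finset.sum_congr rfl fun k _ => ?_
  rw [Matrix.mul_apply, Finset.sum_smul]

theorem sum_diag_smul (Q : Matrix (Fin n) (Fin n) ℂ) (l : Fin n → ℂ) {V : Type*} [AddCommGroup V]
    [Module ℂ V] (v : Fin n → V) (i : Fin n) :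
    ∑ k, (Matrix.diagonal l * Q) i k • v k = l i • ∑ k, Q i k • v k := by
  rw [Finset.smul_sum]
  refine Finset.sum_congr rfl fun k _ => ?_
  rw [Matrix.diagonal_mul, mul_smul]

theorem sum_one_smul {V : Type*} [AddCommGroup V] [Module ℂ V] (v : Fin n → V) (j : Fin n) :
    ∑ k, (1 : Matrix (Fin n) (Fin n) ℂ) j k • v k = v j := by
  rw [Finset.sum_eq_single j]
  · rw [Matrix.one_apply_eq, one_smul]
  · intro k _ hk; rw [Matrix.one_apply_ne (Ne.symm hk), zero_smul]
  · intro h; exact absurd (Finset.mem_univ _) h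

/-- **The local trace identity.** -/
theorem germ_trace {k : ℕ} (R : Matrix (Fin n) (Fin n) ℂ) (hk : 0 < k) (hR : R ^ k = 1)
    (f : Fin n → MvPolynomial (Fin n) ℂ) (hf : ∀ i, lin R (f i) = ∑ j, R i j • f j)
    (I : Ideal (PS n)) (hI : I = Ideal.span (Set.range fun i => cc n (f i)))
    (I2 : Ideal (PS n)) (hI2 : I2 = I ⊔ Ideal.span (Set.range fun i => cc n (∑ j, (R - 1) i j • X j)))
    (hfin : Module.Finite ℂ (PS n ⧸ I)) (T : (PS n ⧸ I) →ₐ[ℂ] (PS n ⧸ I))
    (hT : ∀ i, T (Ideal.Quotient.mk I (cc n (X i))) = Ideal.Quotient.mk I (cc n (∑ j, R i j • X j))) :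
    LinearMap.trace ℂ (PS n ⧸ I) T.toLinearMap = (Module.finrank ℂ (PS n ⧸ I2) : ℂ) := by
  classical
  obtain ⟨Q, l, hQ, hQR, hl⟩ := exists_diag R hk hR
  set Qi := Q⁻¹ with hQi
  have hQQi : Q * Qi = 1 := Matrix.mul_nonsing_inv Q hQ
  have hQiQ : Qi * Q = 1 := Matrix.nonsing_inv_mul Q hQ
  have hRQi : R * Qi = Qi * Matrix.diagonal l := by
    calc R * Qi = (Qi * Q) * R * Qi := by rw [hQiQ, one_mul]
      _ = Qi * (Q * R) * Qi := by simp only [Matrix.mul_assoc]
      _ = Qi * Matrix.diagonal l * (Q * Qi) := by rw [hQR]; simp only [Matrix.mul_assoc]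
      _ = Qi * Matrix.diagonal l := by rw [hQQi, mul_one]
  have hθθ' : ∀ p, lin Q (lin Qi p) = p := fun p => by rw [lin_lin, hQiQ, lin_one]
  have hθ'θ : ∀ p, lin Qi (lin Q p) = p := fun p => by rw [lin_lin, hQQi, lin_one]
  -- the maps to `A`
  let ψ : MvPolynomial (Fin n) ℂ →ₐ[ℂ] (PS n ⧸ I) := (Ideal.Quotient.mkₐ ℂ I).comp (cc n)
  have hψ : ∀ p, ψ p = Ideal.Quotient.mk I (cc n p) := fun p => rfl
  have hψR : ∀ p, ψ (lin R p) = T (ψ p) := by
    intro p
    have : ψ.comp (lin R) = T.comp ψ := by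
      apply MvPolynomial.algHom_ext
      intro i
      show Ideal.Quotient.mk I (cc n (lin R (X i))) = T (Ideal.Quotient.mk I (cc n (X i)))
      rw [hT, lin_X]
    exact congrArg (fun g : MvPolynomial (Fin n) ℂ →ₐ[ℂ] (PS n ⧸ I) => g p) this
  let π : MvPolynomial (Fin n) ℂ →ₐ[ℂ] (PS n ⧸ I) := ψ.comp (lin Q)
  have hπ : ∀ p, π p = Ideal.Quotient.mk I (cc n (lin Q p)) := fun p => rfl
  have hπT : ∀ p, π (TD l p) = T (π p) := by
    intro p
    show ψ (lin Q (TD l p)) = T (ψ (lin Q p))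
    rw [← hψR, TD_eq_lin, lin_lin, ← hQR, lin_lin]
  -- the new equations
  let φ : Fin n → MvPolynomial (Fin n) ℂ := fun i => ∑ j, Q i j • f j
  have hφI : ∀ i, cc n (φ i) ∈ I := by
    intro i
    show cc n (∑ j, Q i j • f j) ∈ I
    rw [map_sum, hI]
    refine Ideal.sum_mem _ fun j _ => ?_
    rw [map_smul, MvPowerSeries.smul_eq_C_mul]
    exact Ideal.mul_mem_left _ _ (Ideal.subset_span ⟨j, rfl⟩)
  let Φ : Fin n → MvPolynomial (Fin n) ℂ := fun i => lin Qi (φ i)
  have hΦ : ∀ i, TD l (Φ i) = C (l i) * Φ i := by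
    intro i
    show TD l (lin Qi (φ i)) = C (l i) * lin Qi (φ i)
    rw [TD_eq_lin, lin_lin, ← hRQi, ← lin_lin]
    have h1 : lin R (φ i) = l i • φ i := by
      show lin R (∑ j, Q i j • f j) = l i • ∑ j, Q i j • f j
      rw [map_sum]
      simp_rw [map_smul, hf]
      rw [sum_mul_smul, hQR, sum_diag_smul]
    rw [h1, map_smul, MvPolynomial.smul_eq_C_mul]
  obtain ⟨N, hN⟩ := exists_pow_le I hfin
  let D : ℕ := 2 * N + 2 + ∑ i, (Φ i).totalDegree
  let m : ℕ := k * D + 1
  have hDm : D < m := Nat.lt_succ_of_le (Nat.le_mul_of_pos_left D hk)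
  have hm2 : 2 ≤ m := by omega
  have hmN : 2 * N ≤ m := by omega
  have hlm : ∀ i, l i ^ m = l i := by
    intro i
    show l i ^ (k * D + 1) = l i
    rw [pow_succ, pow_mul, hl, one_pow, one_mul]
  let S : Sys (Fin n) ℂ (fun _ => m) :=
    { F := fun i => X i ^ m + Φ i
      pos := fun _ => by omega
      lead := fun i => by
        have : X i ^ m + Φ i - X i ^ m = Φ i := by ring
        rw [this]
        apply Lt_of_totalDegree
        have h1 : (Φ i).totalDegree ≤ ∑ i, (Φ i).totalDegree :=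
          Finset.single_le_sum (f := fun i => (Φ i).totalDegree) (fun _ _ => Nat.zero_le _)
            (Finset.mem_univ i)
        omega }
  have hSF : ∀ i, S.F i = X i ^ m + Φ i := fun _ => rfl
  have hS : S.Equiv l := by
    intro i
    rw [hSF, map_add, map_pow, TD_X, hΦ, mul_pow, ← C_pow, hlm]
    ring
  -- linear forms
  let u : Fin n → MvPolynomial (Fin n) ℂ := fun i => ∑ j, Q i j • X j
  have hu : ∀ i, lin Q (X i) = u i := fun i => lin_X Q i
  have hlinF : ∀ i, lin Q (S.F i) = u i ^ m + φ i := by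
    intro i
    rw [hSF, map_add, map_pow, hu]
    show u i ^ m + lin Q (lin Qi (φ i)) = _
    rw [hθθ']
  have hum : ∀ i, cc n (u i ^ m) ∈ mm n ^ m := fun i =>
    cc_mem_mm (Ideal.pow_mem_pow (linX_mem Q i) m)
  have hmmI : ∀ N', N ≤ N' → mm n ^ N' ≤ I := fun N' h => (Ideal.pow_le_pow_right h).trans hN
  have hFI : ∀ i, cc n (lin Q (S.F i)) ∈ I := by
    intro i
    rw [hlinF, map_add]
    exact I.add_mem (hmmI m (by omega) (hum i)) (hφI i)
  have hπJ : ∀ a ∈ S.J, π a = 0 := by
    intro a ha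
    have : S.J ≤ RingHom.ker π := by
      unfold Sys.J
      rw [Ideal.span_le]
      rintro _ ⟨i, rfl⟩
      rw [SetLike.mem_coe, RingHom.mem_ker, hπ, Ideal.Quotient.eq_zero_iff_mem]
      exact hFI i
    exact this ha
  let β : S.B →ₐ[ℂ] (PS n ⧸ I) := Ideal.Quotient.liftₐ S.J π hπJ
  have hβ : ∀ p, β (Ideal.Quotient.mk S.J p) = π p := fun p => rfl
  have hπsurj : Function.Surjective π := by
    intro a
    obtain ⟨g, rfl⟩ := Ideal.Quotient.mk_surjective a
    obtain ⟨t, ht⟩ := exists_poly N g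
    refine ⟨lin Qi t, ?_⟩
    rw [hπ, hθθ']
    symm
    rw [← sub_eq_zero, ← map_sub, Ideal.Quotient.eq_zero_iff_mem]
    exact hN ht
  have hβsurj : Function.Surjective β := by
    intro a
    obtain ⟨p, rfl⟩ := hπsurj a
    exact ⟨Ideal.Quotient.mk S.J p, rfl⟩
  have hβT : ∀ b, β (S.TQ l hS b) = T (β b) := by
    intro b
    obtain ⟨p, rfl⟩ := Ideal.Quotient.mk_surjective b
    rw [Sys.TQ_mk, hβ, hβ, hπT]
  -- the kernel
  have hker : ∀ N', N ≤ N' → N' ≤ m → RingHom.ker β =
      (idealOfVars (Fin n) ℂ ^ N').map (Ideal.Quotient.mk S.J) := by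
    intro N' h1 h2
    apply le_antisymm
    · intro b hb
      obtain ⟨p, rfl⟩ := Ideal.Quotient.mk_surjective b
      rw [RingHom.mem_ker, hβ, hπ, Ideal.Quotient.eq_zero_iff_mem, hI,
        Ideal.mem_span_range_iff_exists_fun] at hb
      obtain ⟨g, hg⟩ := hb
      -- rewrite in terms of `φ`
      let g' : Fin n → PS n := fun i => ∑ j, Qi j i • g j
      have hg' : cc n (lin Q p) = ∑ i, g' i * cc n (φ i) := by
        rw [← hg]
        have h3 : ∀ j, cc n (f j) = ∑ i, Qi j i • cc n (φ i) := by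
          intro j
          have : f j = ∑ i, Qi j i • φ i := by
            show f j = ∑ i, Qi j i • ∑ j, Q i j • f j
            rw [sum_mul_smul, hQiQ, sum_one_smul]
          conv_lhs => rw [this, map_sum]
          simp_rw [map_smul]
        have h4 : ∑ i, g' i * cc n (φ i) = ∑ i, ∑ j, (Qi j i • g j) * cc n (φ i) := by
          refine Finset.sum_congr rfl fun i _ => ?_
          show (∑ j, Qi j i • g j) * cc n (φ i) = _
          rw [Finset.sum_mul]
        rw [h4, Finset.sum_comm]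
        refine Finset.sum_congr rfl fun j _ => ?_
        rw [h3, Finset.mul_sum]
        refine Finset.sum_congr rfl fun i _ => ?_
        rw [mul_smul_comm, smul_mul_assoc]
      choose t ht using fun i => exists_poly N' (g' i)
      let w := lin Q p - ∑ i, t i * lin Q (S.F i)
      have hw : w ∈ idealOfVars (Fin n) ℂ ^ N' := by
        rw [mem_pow_idealOfVars_iff']
        intro x hx
        rw [← coeff_cc]
        refine coeff_mm (N := N') ?_ hx
        have : cc n w = ∑ i, (g' i - cc n (t i)) * cc n (φ i) -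
            ∑ i, cc n (t i) * cc n (u i ^ m) := by
          show cc n (lin Q p - ∑ i, t i * lin Q (S.F i)) = _
          rw [map_sub, hg', map_sum, ← Finset.sum_sub_distrib, ← Finset.sum_sub_distrib]
          refine Finset.sum_congr rfl fun i _ => ?_
          rw [hlinF, map_mul, map_add]
          ring
        rw [this]
        refine Ideal.sub_mem _ (Ideal.sum_mem _ fun i _ => ?_) (Ideal.sum_mem _ fun i _ => ?_)
        · exact Ideal.mul_mem_right _ _ (ht i)
        · exact Ideal.mul_mem_left _ _ (Ideal.pow_le_pow_right h2 (hum i))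
      have hp : p = lin Qi w + ∑ i, lin Qi (t i) * S.F i := by
        show p = lin Qi (lin Q p - ∑ i, t i * lin Q (S.F i)) + _
        rw [map_sub, hθ'θ, map_sum]
        simp_rw [map_mul, hθ'θ]
        ring
      have hmk : Ideal.Quotient.mk S.J p = Ideal.Quotient.mk S.J (lin Qi w) := by
        have hp' : p - lin Qi w = ∑ i, lin Qi (t i) * S.F i := by
          rw [sub_eq_iff_eq_add']
          exact hp
        rw [← sub_eq_zero, ← map_sub, Ideal.Quotient.eq_zero_iff_mem, hp']
        exact Ideal.sum_mem _ fun i _ => Ideal.mul_mem_left _ _ (S.F_mem i)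
      rw [hmk]
      exact Ideal.mem_map_of_mem _ (lin_mem_pow Qi hw)
    · rw [Ideal.map_le_iff_le_comap]
      intro q hq
      rw [Ideal.mem_comap, RingHom.mem_ker, hβ, hπ, Ideal.Quotient.eq_zero_iff_mem]
      exact hmmI N' h1 (cc_mem_mm (lin_mem_pow Q hq))
  have hidem : IsIdempotentElem (RingHom.ker β) := by
    show RingHom.ker β * RingHom.ker β = RingHom.ker β
    conv_lhs => rw [hker N le_rfl (by omega)]
    rw [← Ideal.map_mul, ← pow_add, ← two_mul, ← hker (2 * N) (by omega) hmN]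
  haveI : IsNoetherianRing S.B := inferInstance
  obtain ⟨e, he, hKe⟩ := (Ideal.isIdempotentElem_iff_of_fg _
    (IsNoetherian.noetherian (RingHom.ker β))).1 hidem
  have he' : e * e = e := he
  have hβe : β e = 0 := by
    have : e ∈ RingHom.ker β := by rw [hKe]; exact Ideal.mem_span_singleton_self e
    exact this
  have hkere : ∀ x, β x = 0 → (1 - e) * x = 0 := by
    intro x hx
    have : x ∈ RingHom.ker β := hx
    rw [hKe] at this
    obtain ⟨y, rfl⟩ := Ideal.mem_span_singleton'.1 this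
    have h3 : (1 - e) * (y * e) = y * (e - e * e) := by ring
    rw [h3, he', sub_self, mul_zero]
  obtain ⟨ph, hph⟩ := Ideal.Quotient.mk_surjective (1 - e)
  have key := Sys.trace_diag hm2 S hS hlm ph
  -- left-hand side
  have hL : LinearMap.trace ℂ S.B ((S.TQ l hS).toLinearMap ∘ₗ
      LinearMap.mulLeft ℂ (Ideal.Quotient.mk S.J ph)) = LinearMap.trace ℂ (PS n ⧸ I) T.toLinearMap := by
    apply trace_of_surj β.toLinearMap hβsurj
    · intro x hx
      rw [LinearMap.comp_apply, LinearMap.mulLeft_apply, hph, hkere x hx, map_zero]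
    · intro x
      rw [LinearMap.comp_apply, LinearMap.mulLeft_apply, hph]
      show β (S.TQ l hS ((1 - e) * x)) = T (β x)
      rw [hβT, map_mul, map_sub, map_one, hβe, sub_zero, one_mul]
  -- right-hand side
  have hII2 : I ≤ I2 := by rw [hI2]; exact le_sup_left
  let π2 : MvPolynomial (Fin n) ℂ →ₐ[ℂ] (PS n ⧸ I2) :=
    ((Ideal.Quotient.mkₐ ℂ I2).comp (cc n)).comp (lin Q)
  have hπ2 : ∀ p, π2 p = Ideal.Quotient.mk I2 (cc n (lin Q p)) := fun p => rfl
  have hD1 : Q * (R - 1) = (Matrix.diagonal fun i => l i - 1) * Q := by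
    have : (Matrix.diagonal fun i => l i - 1) = Matrix.diagonal l - 1 := by
      rw [← Matrix.diagonal_one, Matrix.diagonal_sub]
    rw [this, mul_sub, sub_mul, hQR, mul_one, one_mul]
  have huI2 : ∀ i, l i ≠ 1 → cc n (u i) ∈ I2 := by
    intro i hi
    have h3 : (l i - 1) • u i = ∑ j, Q i j • ∑ k, (R - 1) j k • X k := by
      rw [sum_mul_smul, hD1]
      exact (sum_diag_smul Q (fun i => l i - 1) X i).symm
    have h4 : u i = (l i - 1)⁻¹ • ∑ j, Q i j • ∑ k, (R - 1) j k • X k := by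
      rw [← h3, smul_smul, inv_mul_cancel₀ (sub_ne_zero.2 hi), one_smul]
    rw [h4, map_smul, map_sum, MvPowerSeries.smul_eq_C_mul]
    refine Ideal.mul_mem_left _ _ (Ideal.sum_mem _ fun j _ => ?_)
    rw [map_smul, MvPowerSeries.smul_eq_C_mul, hI2]
    exact Ideal.mul_mem_left _ _ (Ideal.mem_sup_right (Ideal.subset_span ⟨j, rfl⟩))
  have hresF : ∀ i, (S.res (fun j => l j ≠ 1)).F i = if l i ≠ 1 then X i else S.F i := fun _ => rfl
  have hπ2J : ∀ a ∈ (S.res (fun j => l j ≠ 1)).J, π2 a = 0 := by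
    intro a ha
    have : (S.res (fun j => l j ≠ 1)).J ≤ RingHom.ker π2 := by
      unfold Sys.J
      rw [Ideal.span_le]
      rintro _ ⟨i, rfl⟩
      rw [SetLike.mem_coe, RingHom.mem_ker, hπ2, Ideal.Quotient.eq_zero_iff_mem, hresF]
      split_ifs with hi
      · rw [hu]; exact huI2 i hi
      · exact hII2 (hFI i)
    exact this ha
  let β2 : (S.res (fun j => l j ≠ 1)).B →ₐ[ℂ] (PS n ⧸ I2) := Ideal.Quotient.liftₐ _ π2 hπ2J
  have hβ2 : ∀ p, β2 (Ideal.Quotient.mk _ p) = π2 p := fun p => rfl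
  have hβ2surj : Function.Surjective β2 := by
    intro a
    obtain ⟨g, rfl⟩ := Ideal.Quotient.mk_surjective a
    obtain ⟨t, ht⟩ := exists_poly N g
    refine ⟨Ideal.Quotient.mk _ (lin Qi t), ?_⟩
    rw [hβ2, hπ2, hθθ']
    symm
    rw [← sub_eq_zero, ← map_sub, Ideal.Quotient.eq_zero_iff_mem]
    exact hII2 (hN ht)
  have hker2 : ∀ x, β2 x = 0 → Ideal.Quotient.mk (S.res (fun j => l j ≠ 1)).J ph * x = 0 := by
    intro x hx
    obtain ⟨p, rfl⟩ := Ideal.Quotient.mk_surjective x
    rw [hβ2, hπ2, Ideal.Quotient.eq_zero_iff_mem, hI2, Submodule.mem_sup] at hx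
    obtain ⟨a, ha, b, hb, hab⟩ := hx
    rw [Ideal.mem_span_range_iff_exists_fun] at hb
    obtain ⟨c, hc⟩ := hb
    -- `b = ∑ d_i (l_i - 1) u_i`
    let d : Fin n → PS n := fun i => ∑ j, Qi j i • c j
    have hw : ∀ j, (∑ k, (R - 1) j k • X k : MvPolynomial (Fin n) ℂ) =
        ∑ i, Qi j i • ((l i - 1) • u i) := by
      intro j
      have h3 : ∀ i, (l i - 1) • u i = ∑ j, Q i j • ∑ k, (R - 1) j k • X k := by
        intro i
        rw [sum_mul_smul, hD1]
        exact (sum_diag_smul Q (fun i => l i - 1) X i).symm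
      simp_rw [h3]
      rw [sum_mul_smul Qi Q (fun j => ∑ k, (R - 1) j k • X k) j, hQiQ]
      exact (sum_one_smul (fun j => ∑ k, (R - 1) j k • (X k : MvPolynomial (Fin n) ℂ)) j).symm
    have hb' : b = ∑ i, d i * ((l i - 1) • cc n (u i)) := by
      have h4 : ∑ i, d i * ((l i - 1) • cc n (u i)) =
          ∑ i, ∑ j, (Qi j i • c j) * ((l i - 1) • cc n (u i)) := by
        refine Finset.sum_congr rfl fun i _ => ?_
        show (∑ j, Qi j i • c j) * _ = _
        rw [Finset.sum_mul]
      rw [h4, Finset.sum_comm, ← hc]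
      refine Finset.sum_congr rfl fun j _ => ?_
      rw [hw, map_sum, Finset.mul_sum]
      refine Finset.sum_congr rfl fun i _ => ?_
      rw [map_smul, map_smul, mul_smul_comm, smul_mul_assoc]
    choose q hq using fun i => exists_poly N (d i)
    let p2 := p - ∑ i, lin Qi (q i) * ((l i - 1) • X i)
    have hp2 : β (Ideal.Quotient.mk S.J p2) = 0 := by
      rw [hβ, hπ, Ideal.Quotient.eq_zero_iff_mem]
      have : cc n (lin Q p2) = a + ∑ i, (d i - cc n (q i)) * ((l i - 1) • cc n (u i)) := by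
        show cc n (lin Q (p - ∑ i, lin Qi (q i) * ((l i - 1) • X i))) = _
        rw [map_sub, map_sub, ← hab, hb', map_sum, map_sum, add_sub_assoc,
          ← Finset.sum_sub_distrib]
        congr 1
        refine Finset.sum_congr rfl fun i _ => ?_
        rw [map_mul, map_mul, hθθ', map_smul, map_smul, hu, sub_mul]
      rw [this]
      refine I.add_mem ha (Ideal.sum_mem _ fun i _ => Ideal.mul_mem_right _ _ (hN (hq i)))
    have h5 := hkere _ hp2
    rw [← hph, ← map_mul, Ideal.Quotient.eq_zero_iff_mem] at h5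
    have h6 := J_le_res S hS h5
    have h7 : Ideal.Quotient.mk (S.res (fun j => l j ≠ 1)).J p =
        Ideal.Quotient.mk (S.res (fun j => l j ≠ 1)).J p2 := by
      rw [← sub_eq_zero, ← map_sub, Ideal.Quotient.eq_zero_iff_mem]
      show p - (p - ∑ i, lin Qi (q i) * ((l i - 1) • X i)) ∈ _
      rw [sub_sub_cancel]
      refine Ideal.sum_mem _ fun i _ => Ideal.mul_mem_left _ _ ?_
      by_cases hi : l i = 1
      · rw [hi, sub_self, zero_smul]; exact Ideal.zero_mem _
      · rw [MvPolynomial.smul_eq_C_mul]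
        refine Ideal.mul_mem_left _ _ ?_
        have := (S.res (fun j => l j ≠ 1)).F_mem i
        rwa [hresF, if_pos hi] at this
    rw [h7, ← map_mul, Ideal.Quotient.eq_zero_iff_mem]
    exact h6
  haveI : Module.Finite ℂ (PS n ⧸ I2) := Module.Finite.of_surjective β2.toLinearMap hβ2surj
  have hRR : LinearMap.trace ℂ (S.res (fun j => l j ≠ 1)).B
      (LinearMap.mulLeft ℂ (Ideal.Quotient.mk (S.res (fun j => l j ≠ 1)).J ph)) =
      LinearMap.trace ℂ (PS n ⧸ I2) LinearMap.id := by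
    apply trace_of_surj β2.toLinearMap hβ2surj
    · intro x hx
      rw [LinearMap.mulLeft_apply]
      exact hker2 x hx
    · intro x
      rw [LinearMap.mulLeft_apply, LinearMap.id_apply]
      show β2 (_ * x) = β2 x
      rw [map_mul]
      have : β2 (Ideal.Quotient.mk _ ph) = 1 := by
        rw [hβ2, hπ2, ← map_one (Ideal.Quotient.mk I2), ← sub_eq_zero, ← map_sub,
          Ideal.Quotient.eq_zero_iff_mem]
        apply hII2
        rw [← Ideal.Quotient.eq_zero_iff_mem, map_sub, map_one, sub_eq_zero]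
        have h8 : β (Ideal.Quotient.mk S.J ph) = 1 := by
          rw [hph, map_sub, map_one, hβe, sub_zero]
        rw [hβ, hπ] at h8
        exact h8
      rw [this, one_mul]
  rw [← hL, key, hRR, LinearMap.trace_id]

end Pool.Agent.Y462.Germ
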