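import Pool.Agent.Y462.Box

set_option autoImplicit false
set_option linter.unusedSectionVars false

open MvPolynomial

namespace Pool.Agent.Y462.Box

variable {ι : Type*} {K L : Type*} [CommRing K] [CommRing L] (φ : K →+* L)

theorem map_Lt {d : ℕ} {p : MvPolynomial ι K} (hp : p ∈ Lt ι K d) :
    MvPolynomial.map φ p ∈ Lt ι L d := by
  rw [mem_Lt] at *
  intro m hm
  apply hp m
  rw [mem_support_iff] at *
  intro h
  apply hm
  rw [coeff_map, h, map_zero]

namespace Sys

variable {M : ι → ℕ} (S : Sys ι K M)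

/-- base change of a system -/
noncomputable def map : Sys ι L M where
  F i := MvPolynomial.map φ (S.F i)
  pos := S.pos
  lead i := by
    have := map_Lt φ (S.lead i)
    rwa [map_sub, map_pow, map_X] at this

theorem map_F (i : ι) : (S.map φ).F i = MvPolynomial.map φ (S.F i) := rfl

theorem J_le : S.J ≤ (S.map φ).J.comap (MvPolynomial.map φ) := by
  unfold J
  rw [Ideal.span_le]
  rintro _ ⟨i, rfl⟩
  exact Ideal.subset_span ⟨i, rfl⟩

/-- the base change map on the quotients -/
noncomputable def mapQ : S.B →+* (S.map φ).B :=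
  Ideal.quotientMap _ (MvPolynomial.map φ) (S.J_le φ)

theorem mapQ_mk (p : MvPolynomial ι K) :
    S.mapQ φ (Ideal.Quotient.mk S.J p) = Ideal.Quotient.mk (S.map φ).J (MvPolynomial.map φ p) :=
  Ideal.quotientMap_mk

theorem mapQ_smul (c : K) (b : S.B) : S.mapQ φ (c • b) = φ c • S.mapQ φ b := by
  obtain ⟨p, rfl⟩ := Ideal.Quotient.mk_surjective b
  have : c • Ideal.Quotient.mk S.J p = Ideal.Quotient.mk S.J (c • p) := rfl
  rw [this, mapQ_mk, mapQ_mk]
  have h2 : φ c • Ideal.Quotient.mk (S.map φ).J (MvPolynomial.map φ p) =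
    Ideal.Quotient.mk (S.map φ).J (φ c • MvPolynomial.map φ p) := rfl
  rw [h2, MvPolynomial.smul_eq_C_mul, MvPolynomial.smul_eq_C_mul, map_mul, map_C]

variable [Fintype ι]

theorem mapQ_qbas (α : Bx M) : S.mapQ φ (S.qbas α) = (S.map φ).qbas α := by
  rw [qbas_apply, mapQ_mk, map_monomial, map_one, qbas_apply]

theorem repr_mapQ (b : S.B) (α : Bx M) :
    (S.map φ).qbas.repr (S.mapQ φ b) α = φ (S.qbas.repr b α) := by
  classical
  conv_lhs => rw [← S.qbas.sum_repr b, map_sum]
  simp_rw [mapQ_smul, mapQ_qbas]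
  rw [map_sum, Finsupp.finsetSum_apply]
  simp_rw [map_smul, Finsupp.smul_apply]
  rw [Finset.sum_eq_single α]
  · rw [Module.Basis.repr_self]
    erw [Finsupp.single_eq_same]
    rw [smul_eq_mul, mul_one]
  · intro β _ hβ
    rw [Module.Basis.repr_self]
    erw [Finsupp.single_eq_of_ne (Ne.symm hβ)]
    rw [smul_zero]
  · intro h; exact absurd (Finset.mem_univ _) h

theorem trace_mapQ (T : S.B →ₗ[K] S.B) (T' : (S.map φ).B →ₗ[L] (S.map φ).B)
    (h : ∀ b, S.mapQ φ (T b) = T' (S.mapQ φ b)) :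
    LinearMap.trace L _ T' = φ (LinearMap.trace K _ T) := by
  classical
  rw [LinearMap.trace_eq_matrix_trace K S.qbas, LinearMap.trace_eq_matrix_trace L (S.map φ).qbas]
  unfold Matrix.trace
  rw [map_sum]
  refine Finset.sum_congr rfl fun α _ => ?_
  rw [Matrix.diag_apply, Matrix.diag_apply, LinearMap.toMatrix_apply, LinearMap.toMatrix_apply,
    ← repr_mapQ, h, mapQ_qbas]

end Sys

end Pool.Agent.Y462.Box
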