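import Mathlib

/-!
# Quotients of polynomial rings by `X_i ^ M_i + lower terms`

Let `F_i = X_i ^ M_i + H_i` with `H_i` of total degree `< M_i`. Then the quotient of the polynomial
ring by the ideal `(F_i)` is free, with basis the monomials `X^α`, `α_i < M_i`.
-/

set_option autoImplicit false
set_option linter.unusedSectionVars false

open MvPolynomial

namespace Pool.Agent.Y462.Box

variable {ι : Type*} {K : Type*} [CommRing K]

/-- polynomials all of whose monomials have degree `< d` -/
noncomputable def Lt (ι K : Type*) [CommRing K] (d : ℕ) : Submodule K (MvPolynomial ι K) :=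
  restrictSupport K {m : ι →₀ ℕ | m.degree < d}

theorem mem_Lt {d : ℕ} {p : MvPolynomial ι K} :
    p ∈ Lt ι K d ↔ ∀ m ∈ p.support, m.degree < d := by
  unfold Lt
  rw [mem_restrictSupport_iff]
  rfl

theorem Lt_mono {a b : ℕ} (h : a ≤ b) : Lt ι K a ≤ Lt ι K b := by
  intro p hp
  rw [mem_Lt] at *
  exact fun m hm => lt_of_lt_of_le (hp m hm) h

theorem Lt_zero {p : MvPolynomial ι K} (hp : p ∈ Lt ι K 0) : p = 0 := by
  rw [mem_Lt] at hp
  rw [← support_eq_empty]
  exact Finset.eq_empty_of_forall_notMem fun m hm => absurd (hp m hm) (Nat.not_lt_zero _)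

theorem Lt_of_totalDegree {d : ℕ} {p : MvPolynomial ι K} (h : p.totalDegree < d) :
    p ∈ Lt ι K d := by
  rw [mem_Lt]
  intro m hm
  exact lt_of_le_of_lt (le_totalDegree hm) h

theorem exists_Lt (p : MvPolynomial ι K) : ∃ d, p ∈ Lt ι K d :=
  ⟨p.totalDegree + 1, Lt_of_totalDegree (Nat.lt_succ_self _)⟩

theorem Lt_mul {a b : ℕ} {p q : MvPolynomial ι K} (hp : p ∈ Lt ι K a) (hq : q ∈ Lt ι K (b + 1)) :
    p * q ∈ Lt ι K (a + b) := by
  classical
  rw [mem_Lt] at *
  intro m hm
  obtain ⟨m1, h1, m2, h2, rfl⟩ := Finset.mem_add.1 (support_mul p q hm)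
  have := hp m1 h1
  have := hq m2 h2
  rw [map_add]
  omega

theorem monomial_mem {m : ι →₀ ℕ} (c : K) {d : ℕ} (h : m.degree < d) :
    monomial m c ∈ Lt ι K d := by
  classical
  rw [mem_Lt]
  intro m' hm'
  have := support_monomial_subset hm'
  rw [Finset.mem_singleton] at this
  rw [this]; exact h

/-- `p` is the monomial `X^γ` plus terms of lower degree -/
def Lead (γ : ι →₀ ℕ) (p : MvPolynomial ι K) : Prop := p - monomial γ 1 ∈ Lt ι K γ.degree

theorem Lead.mem {γ : ι →₀ ℕ} {p : MvPolynomial ι K} (h : Lead γ p) :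
    p ∈ Lt ι K (γ.degree + 1) := by
  have h1 := (Lt ι K (γ.degree + 1)).add_mem (Lt_mono (Nat.le_succ _) h)
    (monomial_mem (1 : K) (Nat.lt_succ_self γ.degree))
  simpa using h1

theorem Lead.mul {γ δ : ι →₀ ℕ} {p q : MvPolynomial ι K} (hp : Lead γ p) (hq : Lead δ q) :
    Lead (γ + δ) (p * q) := by
  unfold Lead
  have e : p * q - monomial (γ + δ) 1 = (p - monomial γ 1) * q + (q - monomial δ 1) * monomial γ 1 := by
    rw [← one_mul (1 : K), ← monomial_mul, one_mul]; ring
  rw [e, map_add]
  refine Submodule.add_mem _ (Lt_mul hp hq.mem) ?_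
  rw [add_comm]
  exact Lt_mul hq (monomial_mem _ (Nat.lt_succ_self _))

theorem Lead.one : Lead (0 : ι →₀ ℕ) (1 : MvPolynomial ι K) := by
  unfold Lead
  rw [show (monomial (0 : ι →₀ ℕ) (1 : K)) = 1 from rfl, sub_self]
  exact Submodule.zero_mem _

theorem Lead.pow {γ : ι →₀ ℕ} {p : MvPolynomial ι K} (hp : Lead γ p) (k : ℕ) :
    Lead (k • γ) (p ^ k) := by
  induction k with
  | zero => simpa using Lead.one
  | succ k ih => rw [pow_succ, succ_nsmul]; exact ih.mul hp

theorem Lead.prod {κ : Type*} (s : Finset κ) {γ : κ → ι →₀ ℕ} {p : κ → MvPolynomial ι K}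
    (hp : ∀ i ∈ s, Lead (γ i) (p i)) : Lead (∑ i ∈ s, γ i) (∏ i ∈ s, p i) := by
  classical
  induction s using Finset.induction_on with
  | empty => simpa using Lead.one
  | insert a s ha ih =>
    rw [Finset.sum_insert ha, Finset.prod_insert ha]
    exact (hp a (Finset.mem_insert_self _ _)).mul
      (ih fun i hi => hp i (Finset.mem_insert_of_mem hi))

theorem Lead.X (i : ι) : Lead (Finsupp.single i 1) (X i : MvPolynomial ι K) := by
  unfold Lead
  rw [show (MvPolynomial.X i : MvPolynomial ι K) = monomial (Finsupp.single i 1) 1 from rfl, sub_self]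
  exact Submodule.zero_mem _

/-- The data: `F_i = X_i ^ M_i +` lower terms. -/
structure Sys (ι K : Type*) [CommRing K] (M : ι → ℕ) where
  F : ι → MvPolynomial ι K
  pos : ∀ i, 0 < M i
  lead : ∀ i, F i - X i ^ M i ∈ Lt ι K (M i)

variable [Fintype ι] {M : ι → ℕ} (S : Sys ι K M)

namespace Sys

theorem leadF (i : ι) : Lead (Finsupp.single i (M i)) (S.F i) := by
  unfold Lead
  rw [Finsupp.degree_single, ← X_pow_eq_monomial]
  exact S.lead i

/-- the family `X^(γ mod M) F^(γ div M)` -/
noncomputable def bfam (γ : ι →₀ ℕ) : MvPolynomial ι K :=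
  ∏ i, (X i ^ (γ i % M i) * S.F i ^ (γ i / M i))

theorem lead_bfam (γ : ι →₀ ℕ) : Lead γ (S.bfam γ) := by
  have h := Lead.prod (K := K) Finset.univ (fun i _ =>
    ((Lead.X (K := K) i).pow (γ i % M i)).mul ((S.leadF i).pow (γ i / M i)))
  have e : (∑ i, ((γ i % M i) • Finsupp.single i 1 +
      (γ i / M i) • Finsupp.single i (M i)) : ι →₀ ℕ) = γ := by
    have : ∀ i, ((γ i % M i) • Finsupp.single i 1 +
      (γ i / M i) • Finsupp.single i (M i) : ι →₀ ℕ) = Finsupp.single i (γ i) := by
      intro i
      rw [Finsupp.smul_single, Finsupp.smul_single, ← Finsupp.single_add]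
      congr 1
      simp only [smul_eq_mul, mul_one]
      rw [mul_comm]; exact Nat.mod_add_div _ _
    simp_rw [this]
    exact Finsupp.univ_sum_single γ
  rw [e] at h
  exact h

/-- the linear map sending the monomial `X^γ` to `bfam γ` -/
noncomputable def Psi : MvPolynomial ι K →ₗ[K] MvPolynomial ι K :=
  (basisMonomials ι K).constr K S.bfam

theorem Psi_monomial (γ : ι →₀ ℕ) : S.Psi (monomial γ 1) = S.bfam γ := by
  have h := (basisMonomials ι K).constr_basis K S.bfam γ
  rw [coe_basisMonomials] at h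
  exact h

theorem Psi_sub {d : ℕ} {p : MvPolynomial ι K} (hp : p ∈ Lt ι K (d + 1)) :
    S.Psi p - p ∈ Lt ι K d := by
  rw [mem_Lt] at hp
  have e : S.Psi p - p = ∑ m ∈ p.support, coeff m p • (S.bfam m - monomial m 1) := by
    conv_lhs => rw [p.as_sum, map_sum]
    rw [← Finset.sum_sub_distrib]
    refine Finset.sum_congr rfl fun m _ => ?_
    have : (monomial m (coeff m p) : MvPolynomial ι K) = coeff m p • monomial m 1 := by
      rw [smul_monomial, smul_eq_mul, mul_one]
    rw [this, map_smul, Psi_monomial, smul_sub]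
  rw [e]
  refine Submodule.sum_mem _ fun m hm => Submodule.smul_mem _ _ ?_
  exact Lt_mono (Nat.lt_succ_iff.1 (hp m hm)) (S.lead_bfam m)

theorem Psi_injective : Function.Injective S.Psi := by
  rw [← LinearMap.ker_eq_bot, LinearMap.ker_eq_bot']
  intro p hp
  have key : ∀ d, p ∈ Lt ι K d → p = 0 := by
    intro d
    induction d with
    | zero => exact Lt_zero
    | succ d ih =>
      intro h
      apply ih
      have := S.Psi_sub h
      rw [hp, zero_sub] at this
      simpa using (Lt ι K d).neg_mem this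
  obtain ⟨d, hd⟩ := exists_Lt p
  exact key d hd

theorem Psi_surjective : Function.Surjective S.Psi := by
  have key : ∀ d, ∀ p ∈ Lt ι K d, ∃ q, S.Psi q = p := by
    intro d
    induction d with
    | zero => intro p hp; exact ⟨0, by rw [map_zero, Lt_zero hp]⟩
    | succ d ih =>
      intro p hp
      obtain ⟨q, hq⟩ := ih _ (S.Psi_sub hp)
      exact ⟨p - q, by rw [map_sub, hq, sub_sub_cancel]⟩
  intro p
  obtain ⟨d, hd⟩ := exists_Lt p
  exact key d p hd

/-- the basis `X^(γ mod M) F^(γ div M)` of the polynomial ring -/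
noncomputable def bas : Module.Basis (ι →₀ ℕ) K (MvPolynomial ι K) :=
  (basisMonomials ι K).map (LinearEquiv.ofBijective S.Psi ⟨S.Psi_injective, S.Psi_surjective⟩)

theorem bas_apply (γ : ι →₀ ℕ) : S.bas γ = S.bfam γ := by
  unfold bas
  rw [Module.Basis.map_apply, coe_basisMonomials]
  exact S.Psi_monomial γ

/-- the ideal `(F_i)` -/
noncomputable def J : Ideal (MvPolynomial ι K) := Ideal.span (Set.range S.F)

theorem F_mem (i : ι) : S.F i ∈ S.J := Ideal.subset_span ⟨i, rfl⟩

theorem F_mul_bfam [DecidableEq ι] (i : ι) (γ : ι →₀ ℕ) :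
    S.F i * S.bfam γ = S.bfam (γ + Finsupp.single i (M i)) := by
  unfold bfam
  rw [← Finset.mul_prod_erase Finset.univ _ (Finset.mem_univ i),
    ← Finset.mul_prod_erase Finset.univ (fun j => X j ^ ((γ + Finsupp.single i (M i)) j % M j) *
      S.F j ^ ((γ + Finsupp.single i (M i)) j / M j)) (Finset.mem_univ i)]
  have e1 : ∏ x ∈ Finset.univ.erase i, (X x ^ (γ x % M x) * S.F x ^ (γ x / M x)) =
      ∏ x ∈ Finset.univ.erase i, (X x ^ ((γ + Finsupp.single i (M i)) x % M x) *
      S.F x ^ ((γ + Finsupp.single i (M i)) x / M x)) := by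
    refine Finset.prod_congr rfl fun j hj => ?_
    have : (γ + Finsupp.single i (M i)) j = γ j := by
      rw [Finsupp.add_apply, Finsupp.single_eq_of_ne (Finset.ne_of_mem_erase hj), add_zero]
    rw [this]
  rw [e1, ← mul_assoc]
  congr 1
  rw [Finsupp.add_apply, Finsupp.single_eq_same, Nat.add_mod_right,
    Nat.add_div_right _ (S.pos i), pow_succ]
  ring

theorem bfam_mem {γ : ι →₀ ℕ} {i : ι} (h : M i ≤ γ i) : S.bfam γ ∈ S.J := by
  classical
  unfold bfam
  rw [← Finset.mul_prod_erase Finset.univ _ (Finset.mem_univ i)]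
  refine Ideal.mul_mem_right _ _ (Ideal.mul_mem_left _ _ ?_)
  have : 0 < γ i / M i := Nat.div_pos h (S.pos i)
  exact Ideal.pow_mem_of_mem _ (S.F_mem i) _ this

theorem mem_J_iff (p : MvPolynomial ι K) :
    p ∈ S.J ↔ p ∈ Submodule.span K (S.bas '' {γ | ∃ i, M i ≤ γ i}) := by
  classical
  constructor
  · intro hp
    refine Submodule.span_induction (p := fun p _ =>
      p ∈ Submodule.span K (S.bas '' {γ | ∃ i, M i ≤ γ i})) ?_ ?_ ?_ ?_ hp
    · rintro _ ⟨i, rfl⟩
      have : S.F i = S.bas (0 + Finsupp.single i (M i)) := by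
        rw [bas_apply, ← F_mul_bfam]
        unfold bfam
        simp
      rw [this]
      exact Submodule.subset_span ⟨_, ⟨i, by simp⟩, rfl⟩
    · exact Submodule.zero_mem _
    · intro x y _ _ hx hy; exact Submodule.add_mem _ hx hy
    · intro a x _ hx
      rw [smul_eq_mul]
      refine Submodule.span_induction (p := fun x _ =>
        a * x ∈ Submodule.span K (S.bas '' {γ | ∃ i, M i ≤ γ i})) ?_ ?_ ?_ ?_ hx
      · rintro _ ⟨γ, ⟨i, hi⟩, rfl⟩
        have e : S.bas γ = S.F i * S.bas (γ - Finsupp.single i (M i)) := by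
          rw [bas_apply, bas_apply, F_mul_bfam, tsub_add_cancel_of_le]
          intro j
          rcases eq_or_ne j i with rfl | hj
          · simpa using hi
          · rw [Finsupp.single_eq_of_ne hj]; exact Nat.zero_le _
        rw [e, mul_left_comm]
        have ht : ∀ q : MvPolynomial ι K,
            S.F i * q ∈ Submodule.span K (S.bas '' {γ | ∃ i, M i ≤ γ i}) := by
          intro q
          have hq : q ∈ Submodule.span K (Set.range S.bas) := by
            rw [S.bas.span_eq]; exact Submodule.mem_top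
          refine Submodule.span_induction (p := fun q _ =>
            S.F i * q ∈ Submodule.span K (S.bas '' {γ | ∃ i, M i ≤ γ i})) ?_ ?_ ?_ ?_ hq
          · rintro _ ⟨δ, rfl⟩
            rw [bas_apply, F_mul_bfam, ← bas_apply]
            exact Submodule.subset_span ⟨_, ⟨i, by simp⟩, rfl⟩
          · rw [mul_zero]; exact Submodule.zero_mem _
          · intro x y _ _ hx hy; rw [mul_add]; exact Submodule.add_mem _ hx hy
          · intro c x _ hx; rw [mul_smul_comm]; exact Submodule.smul_mem _ _ hx
        exact ht _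
      · rw [mul_zero]; exact Submodule.zero_mem _
      · intro x y _ _ hx hy; rw [mul_add]; exact Submodule.add_mem _ hx hy
      · intro c x _ hx; rw [mul_smul_comm]; exact Submodule.smul_mem _ _ hx
  · intro hp
    refine Submodule.span_induction (p := fun p _ => p ∈ S.J) ?_ ?_ ?_ ?_ hp
    · rintro _ ⟨γ, ⟨i, hi⟩, rfl⟩
      rw [bas_apply]
      exact S.bfam_mem hi
    · exact S.J.zero_mem
    · intro x y _ _ hx hy; exact S.J.add_mem hx hy
    · intro c x _ hx; rw [MvPolynomial.smul_eq_C_mul]; exact S.J.mul_mem_left _ hx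

end Sys

/-- the index set of the box -/
abbrev Bx (M : ι → ℕ) : Type _ := ∀ i, Fin (M i)

/-- the exponent of a box index -/
noncomputable def ex {M : ι → ℕ} (α : Bx M) : ι →₀ ℕ :=
  Finsupp.equivFunOnFinite.symm fun i => (α i : ℕ)

theorem ex_apply {M : ι → ℕ} (α : Bx M) (i : ι) : ex α i = α i := rfl

theorem ex_injective {M : ι → ℕ} : Function.Injective (ex : Bx M → ι →₀ ℕ) := by
  intro α β h
  funext i
  apply Fin.ext
  rw [← ex_apply, ← ex_apply, h]

namespace Sys

theorem bfam_ex (α : Bx M) : S.bfam (ex α) = monomial (ex α) 1 := by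
  unfold bfam
  have : ∀ i, (X i ^ (ex α i % M i) * S.F i ^ (ex α i / M i) : MvPolynomial ι K) =
      X i ^ (ex α i) := by
    intro i
    rw [ex_apply, Nat.mod_eq_of_lt (α i).2, Nat.div_eq_of_lt (α i).2, pow_zero, mul_one]
  simp_rw [this]
  rw [monomial_eq, C_1, one_mul, Finsupp.prod_fintype]
  intro i; exact pow_zero _

/-- the quotient algebra -/
abbrev B : Type _ := MvPolynomial ι K ⧸ S.J

/-- the basis of the quotient by box monomials -/
noncomputable def qbas : Module.Basis (Bx M) K S.B :=
  Module.Basis.mk (v := fun α : Bx M => Ideal.Quotient.mk S.J (monomial (ex α) 1))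
    (by
      classical
      rw [linearIndependent_iff']
      intro s g hg i hi
      have h1 : Ideal.Quotient.mk S.J (∑ α ∈ s, g α • S.bas (ex α)) = 0 := by
        rw [map_sum, ← hg]
        refine Finset.sum_congr rfl fun α _ => ?_
        rw [bas_apply, bfam_ex]
        rfl
      rw [Ideal.Quotient.eq_zero_iff_mem, mem_J_iff] at h1
      have h2 : (∑ α ∈ s, g α • S.bas (ex α)) ∈
          Submodule.span K (S.bas '' {γ | ∀ i, γ i < M i}) :=
        Submodule.sum_mem _ fun α _ => Submodule.smul_mem _ _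
          (Submodule.subset_span ⟨_, fun i => (α i).2, rfl⟩)
      have hd : Disjoint {γ : ι →₀ ℕ | ∀ i, γ i < M i} {γ : ι →₀ ℕ | ∃ i, M i ≤ γ i} := by
        rw [Set.disjoint_left]
        rintro γ h ⟨i, hi⟩
        exact absurd (h i) (not_lt.2 hi)
      have h3 := S.bas.linearIndependent.disjoint_span_image hd
      have h4 := (Submodule.disjoint_def.1 h3) _ h2 h1
      have h5 := (linearIndependent_iff'.1 (S.bas.linearIndependent.comp _ ex_injective)) s g h4
      exact h5 i hi)
    (by
      classical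
      rintro b -
      obtain ⟨p, rfl⟩ := Ideal.Quotient.mk_surjective b
      have hp : p ∈ Submodule.span K (Set.range S.bas) := by
        rw [S.bas.span_eq]; exact Submodule.mem_top
      refine Submodule.span_induction (p := fun p _ => Ideal.Quotient.mk S.J p ∈
        Submodule.span K (Set.range fun α : Bx M => Ideal.Quotient.mk S.J (monomial (ex α) 1)))
        ?_ ?_ ?_ ?_ hp
      · rintro _ ⟨γ, rfl⟩
        by_cases h : ∀ i, γ i < M i
        · let α : Bx M := fun i => ⟨γ i, h i⟩
          have : γ = ex α := by ext i; rfl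
          rw [this, bas_apply, bfam_ex]
          exact Submodule.subset_span ⟨α, rfl⟩
        · push Not at h
          obtain ⟨i, hi⟩ := h
          rw [bas_apply, Ideal.Quotient.eq_zero_iff_mem.2 (S.bfam_mem hi)]
          exact Submodule.zero_mem _
      · rw [map_zero]; exact Submodule.zero_mem _
      · intro x y _ _ hx hy; rw [map_add]; exact Submodule.add_mem _ hx hy
      · intro c x _ hx
        have : Ideal.Quotient.mk S.J (c • x) = c • Ideal.Quotient.mk S.J x := rfl
        rw [this]
        exact Submodule.smul_mem _ _ hx)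

theorem qbas_apply (α : Bx M) : S.qbas α = Ideal.Quotient.mk S.J (monomial (ex α) 1) := by
  unfold qbas
  rw [Module.Basis.mk_apply]

instance : Module.Free K S.B := Module.Free.of_basis S.qbas
instance : Module.Finite K S.B := Module.Finite.of_basis S.qbas

end Sys

end Pool.Agent.Y462.Box
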