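import Mathlib

/-!
# The trace identity for reduced finite-dimensional algebras

For an endomorphism `T` of a reduced finite-dimensional commutative `ℂ`-algebra `B` and `h ∈ B`,
`tr (b ↦ T (h b)) = tr (h | B / I)`, `I` the ideal generated by all `T b - b`.
-/

set_option autoImplicit false
set_option linter.unusedSectionVars false
set_option linter.style.haveILetI false

namespace Pool.Agent.Y462.Red

variable {B : Type*} [CommRing B] [Algebra ℂ B] [Module.Finite ℂ B]

/-- evaluation at all the points of `B` -/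
noncomputable def ev (B : Type*) [CommRing B] [Algebra ℂ B] : B →ₗ[ℂ] ((B →ₐ[ℂ] ℂ) → ℂ) :=
  LinearMap.pi fun p => p.toLinearMap

theorem ev_apply (b : B) (p : B →ₐ[ℂ] ℂ) : ev B b p = p b := rfl

instance : Finite (B →ₐ[ℂ] ℂ) := by
  have h := linearIndependent_algHom_toLinearMap ℂ B ℂ
  exact h.finite

theorem ev_injective [IsReduced B] : Function.Injective (ev B) := by
  rw [← LinearMap.ker_eq_bot, LinearMap.ker_eq_bot']
  intro b hb
  have hart : IsArtinianRing B := IsArtinianRing.of_finite ℂ B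
  have hj : b ∈ Ring.jacobson B := by
    rw [Ring.jacobson_eq_sInf_isMaximal, Submodule.mem_sInf]
    intro (I : Ideal B) (hI : I.IsMaximal)
    letI : Field (B ⧸ I) := Ideal.Quotient.field I
    have : Algebra.IsIntegral ℂ (B ⧸ I) := inferInstance
    have hbij := IsAlgClosed.algebraMap_bijective_of_isIntegral (k := ℂ) (K := B ⧸ I)
    let e : ℂ ≃ₐ[ℂ] (B ⧸ I) := AlgEquiv.ofBijective (Algebra.ofId ℂ (B ⧸ I)) hbij
    let p : B →ₐ[ℂ] ℂ := (e.symm : (B ⧸ I) →ₐ[ℂ] ℂ).comp (Ideal.Quotient.mkₐ ℂ I)
    have hp : p b = 0 := congrFun hb p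
    have : Ideal.Quotient.mk I b = 0 := by
      have h2 : e.symm (Ideal.Quotient.mk I b) = 0 := hp
      exact (map_eq_zero_iff e.symm e.symm.injective).1 h2
    exact Ideal.Quotient.eq_zero_iff_mem.1 this
  rw [← Ideal.jacobson_bot, IsArtinianRing.jacobson_eq_radical] at hj
  have h2 : b ∈ nilradical B := hj
  rw [nilradical_eq_zero] at h2
  exact h2

theorem ev_surjective : Function.Surjective (ev B) := by
  classical
  letI := Fintype.ofFinite (B →ₐ[ℂ] ℂ)
  rw [← LinearMap.range_eq_top]
  by_contra hne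
  obtain ⟨f, hf0, hf⟩ := Submodule.exists_le_ker_of_lt_top _ (lt_top_iff_ne_top.2 hne)
  apply hf0
  have h := Fintype.linearIndependent_iff.1 (linearIndependent_algHom_toLinearMap ℂ B ℂ)
    (fun p => f (Pi.single p 1)) (by
      apply LinearMap.ext
      intro b
      have h1 : f (ev B b) = 0 := hf ⟨b, rfl⟩
      have h2 : ev B b = ∑ p, (p b) • (Pi.single p (1 : ℂ) : (B →ₐ[ℂ] ℂ) → ℂ) := by
        funext q
        rw [Finset.sum_apply, Finset.sum_eq_single q]
        · simp [ev_apply]
        · intro p _ hp; simp [Pi.single_eq_of_ne (Ne.symm hp)]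
        · intro h; exact absurd (Finset.mem_univ _) h
      rw [h2, map_sum] at h1
      rw [LinearMap.sum_apply, LinearMap.zero_apply, ← h1]
      refine Finset.sum_congr rfl fun p _ => ?_
      rw [map_smul, LinearMap.smul_apply, smul_eq_mul, smul_eq_mul, mul_comm]
      rfl)
  apply LinearMap.pi_ext'
  intro p
  apply LinearMap.ext_ring
  exact h p

/-- the trace of an endomorphism of `B` which corresponds to a weighted composition operator -/
theorem trace_aux {Z : Type*} [Finite Z] {V : Type*} [AddCommGroup V] [Module ℂ V]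
    (e : V →ₗ[ℂ] (Z → ℂ)) (he : Function.Bijective e) (φ : V →ₗ[ℂ] V) (w : Z → ℂ) (t : Z → Z)
    (h : ∀ v p, e (φ v) p = w p * e v (t p)) :
    LinearMap.trace ℂ V φ = ∑ᶠ p : {p : Z // t p = p}, w p := by
  classical
  letI := Fintype.ofFinite Z
  let E : V ≃ₗ[ℂ] (Z → ℂ) := LinearEquiv.ofBijective e he
  have h1 : LinearMap.trace ℂ V φ = LinearMap.trace ℂ (Z → ℂ) (E.conj φ) :=
    (LinearMap.trace_conj' φ E).symm
  rw [h1, LinearMap.trace_eq_matrix_trace ℂ (Pi.basisFun ℂ Z), finsum_eq_sum_of_fintype]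
  unfold Matrix.trace
  have h2 : ∀ p : Z, Matrix.diag (LinearMap.toMatrix (Pi.basisFun ℂ Z) (Pi.basisFun ℂ Z) (E.conj φ)) p
      = if t p = p then w p else 0 := by
    intro p
    rw [Matrix.diag_apply, LinearMap.toMatrix_apply, Pi.basisFun_repr, Pi.basisFun_apply]
    have h3 : E.conj φ (Pi.single p 1) = e (φ (E.symm (Pi.single p 1))) := rfl
    have h4 : e (E.symm (Pi.single p 1)) = Pi.single p (1 : ℂ) := E.apply_symm_apply _
    rw [h3, h, h4]
    split_ifs with hp
    · rw [hp, Pi.single_eq_same, mul_one]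
    · rw [Pi.single_eq_of_ne hp, mul_zero]
  simp_rw [h2]
  rw [← Finset.sum_filter]
  exact (Finset.sum_subtype (Finset.univ.filter fun p => t p = p) (by simp) w)

/-- the ideal generated by all `T b - b` -/
def fixIdeal (T : B →ₐ[ℂ] B) : Ideal B := Ideal.span (Set.range fun b => T b - b)

/-- **The trace identity for reduced algebras.** -/
theorem trace_eq [IsReduced B] (T : B →ₐ[ℂ] B) (h : B) :
    LinearMap.trace ℂ B (T.toLinearMap ∘ₗ LinearMap.mulLeft ℂ h) =
      LinearMap.trace ℂ (B ⧸ fixIdeal T) (LinearMap.mulLeft ℂ (Ideal.Quotient.mk (fixIdeal T) h)) := by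
  classical
  letI := Fintype.ofFinite (B →ₐ[ℂ] ℂ)
  have hbij : Function.Bijective (ev B) := ⟨ev_injective, ev_surjective⟩
  have h1 := trace_aux (ev B) hbij (T.toLinearMap ∘ₗ LinearMap.mulLeft ℂ h)
    (fun p => p (T h)) (fun p => p.comp T) (by
      intro b p
      simp [ev_apply])
  rw [h1]
  -- the fixed points
  let Z' := {p : B →ₐ[ℂ] ℂ // p.comp T = p}
  let r : B →ₗ[ℂ] (Z' → ℂ) := LinearMap.pi fun p => p.1.toLinearMap
  have hker : ∀ b, r b = 0 ↔ b ∈ fixIdeal T := by
    intro b
    constructor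
    · intro hb
      obtain ⟨δ, hδ⟩ : ∃ δ : (B →ₐ[ℂ] ℂ) → B, ∀ q, ev B (δ q) = Pi.single q 1 :=
        ⟨fun q => (ev_surjective (Pi.single q 1)).choose,
          fun q => (ev_surjective (Pi.single q 1)).choose_spec⟩
      have hsum : b = ∑ q, (q b) • δ q := by
        apply hbij.1
        rw [map_sum]
        funext p
        rw [Finset.sum_apply, Finset.sum_eq_single p]
        · rw [map_smul, hδ, Pi.smul_apply, Pi.single_eq_same, smul_eq_mul, mul_one]; rfl
        · intro q _ hq
          rw [map_smul, hδ, Pi.smul_apply, Pi.single_eq_of_ne (Ne.symm hq), smul_zero]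
        · intro h; exact absurd (Finset.mem_univ _) h
      rw [hsum]
      refine Ideal.sum_mem _ fun q _ => ?_
      by_cases hq : q.comp T = q
      · have : q b = 0 := congrFun hb ⟨q, hq⟩
        rw [this, zero_smul]; exact Ideal.zero_mem _
      · obtain ⟨c, hc⟩ : ∃ c, (q.comp T) c ≠ q c := by
          by_contra hcon
          push Not at hcon
          exact hq (AlgHom.ext hcon)
        have hδq : δ q = (T c - c) * ((q (T c) - q c)⁻¹ • δ q) := by
          apply hbij.1
          funext p
          rw [ev_apply, ev_apply, map_mul, map_smul, map_sub]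
          have hp : p (δ q) = (Pi.single q (1 : ℂ) : (B →ₐ[ℂ] ℂ) → ℂ) p := congrFun (hδ q) p
          rw [hp]
          rcases eq_or_ne p q with rfl | hpq
          · rw [Pi.single_eq_same, smul_eq_mul, mul_one, mul_inv_cancel₀]
            exact sub_ne_zero.2 hc
          · rw [Pi.single_eq_of_ne hpq, smul_zero, mul_zero]
        have : δ q ∈ fixIdeal T := by
          rw [hδq]
          exact Ideal.mul_mem_right _ _ (Ideal.subset_span ⟨c, rfl⟩)
        rw [Algebra.smul_def]
        exact Ideal.mul_mem_left _ _ this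
    · intro hb
      funext p
      refine Submodule.span_induction (p := fun b _ => r b p = 0) ?_ ?_ ?_ ?_ hb
      · rintro _ ⟨c, rfl⟩
        show p.1 (T c - c) = 0
        have : p.1 (T c) = p.1 c := congrArg (fun q : B →ₐ[ℂ] ℂ => q c) p.2
        rw [map_sub, this, sub_self]
      · rw [map_zero]; rfl
      · intro x y _ _ hx hy
        rw [map_add, Pi.add_apply, hx, hy, add_zero]
      · intro a x _ hx
        have hx' : p.1 x = 0 := hx
        show p.1 (a • x) = 0
        rw [smul_eq_mul, map_mul, hx', mul_zero]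
  have hsurj : Function.Surjective r := by
    intro u
    obtain ⟨b, hb⟩ := ev_surjective (B := B) (fun p => if hp : p.comp T = p then u ⟨p, hp⟩ else 0)
    refine ⟨b, ?_⟩
    funext p
    have := congrFun hb p.1
    rw [ev_apply, dif_pos p.2] at this
    exact this
  let r' : (B ⧸ fixIdeal T) →ₗ[ℂ] (Z' → ℂ) :=
    Submodule.liftQ ((fixIdeal T).restrictScalars ℂ) r (fun b hb => (hker b).2 hb)
  have hr' : ∀ b, r' (Ideal.Quotient.mk (fixIdeal T) b) = r b := fun b => rfl
  have hbij' : Function.Bijective r' := by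
    constructor
    · rw [← LinearMap.ker_eq_bot, LinearMap.ker_eq_bot']
      intro x hx
      obtain ⟨b, rfl⟩ := Ideal.Quotient.mk_surjective x
      rw [hr', hker] at hx
      exact Ideal.Quotient.eq_zero_iff_mem.2 hx
    · intro u
      obtain ⟨b, hb⟩ := hsurj u
      exact ⟨Ideal.Quotient.mk _ b, by rw [hr', hb]⟩
  have h2 := trace_aux r' hbij' (LinearMap.mulLeft ℂ (Ideal.Quotient.mk (fixIdeal T) h))
    (fun p => p.1 h) id (by
      intro x p
      obtain ⟨b, rfl⟩ := Ideal.Quotient.mk_surjective x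
      rw [LinearMap.mulLeft_apply, ← map_mul, hr', hr']
      show p.1 (h * b) = p.1 h * p.1 b
      rw [map_mul])
  rw [h2]
  letI : Fintype Z' := Fintype.ofFinite _
  rw [finsum_eq_sum_of_fintype, finsum_eq_sum_of_fintype]
  refine Fintype.sum_equiv (Equiv.mk (fun p => ⟨p, rfl⟩) (fun p => p.1) (fun _ => rfl) (fun _ => rfl)) _ _ ?_
  intro p
  exact congrArg (fun q : B →ₐ[ℂ] ℂ => q h) p.2

end Pool.Agent.Y462.Red
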