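import Pool.Agent.Y462.BaseChange
import Pool.Agent.Y462.Reduced

set_option autoImplicit false
set_option linter.unusedSectionVars false
set_option linter.style.haveILetI false

open MvPolynomial

namespace Pool.Agent.Y462.Box

variable {ι : Type*} {K L : Type*} [CommRing K] [CommRing L]

/-- the diagonal substitution `X_j ↦ l_j X_j` -/
noncomputable def TD (l : ι → K) : MvPolynomial ι K →ₐ[K] MvPolynomial ι K :=
  aeval fun j => C (l j) * X j

theorem TD_X (l : ι → K) (j : ι) : TD l (X j) = C (l j) * X j := by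
  unfold TD; rw [aeval_X]

theorem TD_monomial (l : ι → K) (m : ι →₀ ℕ) (c : K) :
    TD l (monomial m c) = C (m.prod fun j k => l j ^ k) * monomial m c := by
  unfold TD
  rw [aeval_monomial, monomial_eq, algebraMap_eq]
  unfold Finsupp.prod
  have : ∀ j ∈ m.support, (C (l j) * X j : MvPolynomial ι K) ^ m j = C (l j ^ m j) * X j ^ m j := by
    intro j _
    rw [mul_pow, C_pow]
  rw [Finset.prod_congr rfl this, Finset.prod_mul_distrib, map_prod]
  ring

theorem TD_coeff (l : ι → K) (p : MvPolynomial ι K) (m : ι →₀ ℕ) :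
    coeff m (TD l p) = (m.prod fun j k => l j ^ k) * coeff m p := by
  classical
  induction p using MvPolynomial.induction_on' with
  | monomial u a =>
    rw [TD_monomial, coeff_C_mul, coeff_monomial]
    split_ifs with h
    · rw [h]
    · rw [mul_zero, mul_zero]
  | add p q hp hq => rw [map_add, coeff_add, coeff_add, hp, hq, mul_add]

/-- the ideal generated by the variables with the property `Z` -/
noncomputable def zI (K : Type*) [CommRing K] (Z : ι → Prop) : Ideal (MvPolynomial ι K) :=
  Ideal.span {p | ∃ j, Z j ∧ p = X j}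

theorem monomial_mem_zI {Z : ι → Prop} {m : ι →₀ ℕ} {j : ι} (hj : Z j) (hm : m j ≠ 0) (c : K) :
    monomial m c ∈ zI K Z := by
  classical
  have : monomial m c = monomial (m - Finsupp.single j 1) c * X j := by
    rw [X, monomial_mul, mul_one, tsub_add_cancel_of_le]
    rw [Finsupp.single_le_iff]
    exact Nat.one_le_iff_ne_zero.2 hm
  rw [this]
  exact Ideal.mul_mem_left _ _ (Ideal.subset_span ⟨j, hj, rfl⟩)

theorem prod_ne_one {l : ι → K} {m : ι →₀ ℕ} (h : (m.prod fun j k => l j ^ k) ≠ 1) :
    ∃ j, l j ≠ 1 ∧ m j ≠ 0 := by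
  by_contra hcon
  push Not at hcon
  apply h
  unfold Finsupp.prod
  refine Finset.prod_eq_one fun j hj => ?_
  show l j ^ m j = 1
  by_cases hl : l j = 1
  · rw [hl, one_pow]
  · rw [hcon j hl, pow_zero]

theorem TD_sub_mem (l : ι → K) (p : MvPolynomial ι K) : TD l p - p ∈ zI K (fun j => l j ≠ 1) := by
  classical
  rw [(TD l p - p).as_sum]
  refine Ideal.sum_mem _ fun m hm => ?_
  rw [mem_support_iff, coeff_sub, TD_coeff] at hm
  have : (m.prod fun j k => l j ^ k) ≠ 1 := by
    intro h; apply hm; rw [h, one_mul, sub_self]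
  obtain ⟨j, hj, hmj⟩ := prod_ne_one this
  exact monomial_mem_zI (Z := fun j => l j ≠ 1) hj hmj _

theorem mem_zI_of_weight {l : ι → K} {p : MvPolynomial ι K} {c : K} [IsDomain K]
    (h : TD l p = C c * p) (hc : c ≠ 1) : p ∈ zI K (fun j => l j ≠ 1) := by
  classical
  rw [p.as_sum]
  refine Ideal.sum_mem _ fun m hm => ?_
  have h1 := congrArg (coeff m) h
  rw [TD_coeff, coeff_C_mul] at h1
  have h2 := mul_right_cancel₀ (mem_support_iff.1 hm) h1
  obtain ⟨j, hj, hmj⟩ := prod_ne_one (l := l) (m := m) (by rw [h2]; exact hc)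
  exact monomial_mem_zI (Z := fun j => l j ≠ 1) hj hmj _

namespace Sys

variable {M : ι → ℕ}

theorem ext' {S T : Sys ι K M} (h : ∀ i, S.F i = T.F i) : S = T := by
  cases S; cases T
  congr
  funext i
  exact h i

variable (S : Sys ι K M)

/-- equivariance of a system -/
def Equiv (l : ι → K) : Prop := ∀ i, TD l (S.F i) = C (l i) * S.F i

variable {S}

theorem Equiv.le {l : ι → K} (h : S.Equiv l) : S.J ≤ S.J.comap (TD l) := by
  unfold J
  rw [Ideal.span_le]
  rintro _ ⟨i, rfl⟩
  rw [SetLike.mem_coe, Ideal.mem_comap, h i]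
  exact Ideal.mul_mem_left _ _ (Ideal.subset_span ⟨i, rfl⟩)

variable (S) in
/-- the induced algebra endomorphism on the quotient -/
noncomputable def TQ (l : ι → K) (h : S.Equiv l) : S.B →ₐ[K] S.B :=
  Ideal.quotientMapₐ S.J (TD l) h.le

theorem TQ_mk {l : ι → K} (h : S.Equiv l) (p : MvPolynomial ι K) :
    S.TQ l h (Ideal.Quotient.mk S.J p) = Ideal.Quotient.mk S.J (TD l p) := rfl

end Sys

theorem TD_map (φ : K →+* L) (l : ι → K) (p : MvPolynomial ι K) :
    MvPolynomial.map φ (TD l p) = TD (fun j => φ (l j)) (MvPolynomial.map φ p) := by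
  ext m
  rw [coeff_map, TD_coeff, TD_coeff, coeff_map, map_mul]
  congr 1
  unfold Finsupp.prod
  rw [map_prod]
  simp_rw [map_pow]

namespace Sys

variable {M : ι → ℕ} {S : Sys ι K M}

theorem Equiv.map {l : ι → K} (h : S.Equiv l) (φ : K →+* L) :
    (S.map φ).Equiv (fun j => φ (l j)) := by
  intro i
  rw [map_F, ← TD_map, h i, map_mul, map_C]

/-- set the variables with the property `Z` to zero -/
noncomputable def res {m : ℕ} (S : Sys ι K (fun _ => m)) (Z : ι → Prop) [DecidablePred Z] :
    Sys ι K (fun i => if Z i then 1 else m) where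
  F i := if Z i then X i else S.F i
  pos i := by
    split_ifs
    · exact Nat.one_pos
    · exact S.pos i
  lead i := by
    by_cases h : Z i
    · simp only [if_pos h, pow_one, sub_self]; exact Submodule.zero_mem _
    · simp only [if_neg h]; exact S.lead i

theorem res_map {m : ℕ} (S : Sys ι K (fun _ => m)) (Z : ι → Prop) [DecidablePred Z] (φ : K →+* L) :
    (S.map φ).res Z = (S.res Z).map φ := by
  apply ext'
  intro i
  rw [map_F]
  unfold res
  simp only
  split_ifs
  · rw [map_X]
  · rfl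

variable [Fintype ι]

open scoped Classical in
/-- The trace identity when the quotient algebra is reduced. -/
theorem trace_eq_of_reduced {m : ℕ} (S : Sys ι ℂ (fun _ => m)) {l : ι → ℂ} (hS : S.Equiv l)
    [IsReduced S.B] (h : MvPolynomial ι ℂ) :
    LinearMap.trace ℂ S.B ((S.TQ l hS).toLinearMap ∘ₗ LinearMap.mulLeft ℂ (Ideal.Quotient.mk S.J h))
      = LinearMap.trace ℂ (S.res (fun j => l j ≠ 1)).B
        (LinearMap.mulLeft ℂ (Ideal.Quotient.mk (S.res (fun j => l j ≠ 1)).J h)) := by
  rw [Red.trace_eq]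
  have e1 : Red.fixIdeal (S.TQ l hS) = (zI ℂ (fun j => l j ≠ 1)).map (Ideal.Quotient.mkₐ ℂ S.J) := by
    apply le_antisymm
    · unfold Red.fixIdeal
      rw [Ideal.span_le]
      rintro _ ⟨b, rfl⟩
      obtain ⟨p, rfl⟩ := Ideal.Quotient.mk_surjective b
      have : S.TQ l hS (Ideal.Quotient.mk S.J p) - Ideal.Quotient.mk S.J p =
        Ideal.Quotient.mkₐ ℂ S.J (TD l p - p) := by rw [TQ_mk, map_sub]; rfl
      simp only [SetLike.mem_coe]
      rw [this]
      exact Ideal.mem_map_of_mem _ (TD_sub_mem l p)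
    · rw [Ideal.map_le_iff_le_comap]
      unfold zI
      rw [Ideal.span_le]
      rintro _ ⟨j, hj, rfl⟩
      rw [SetLike.mem_coe, Ideal.mem_comap]
      have h1 : S.TQ l hS (Ideal.Quotient.mk S.J (X j)) - Ideal.Quotient.mk S.J (X j) =
          Ideal.Quotient.mk S.J (C (l j - 1)) * Ideal.Quotient.mk S.J (X j) := by
        rw [TQ_mk, TD_X, ← map_sub, ← map_mul, map_sub C, map_one, sub_mul, one_mul]
      have h2 : Ideal.Quotient.mkₐ ℂ S.J (X j) = Ideal.Quotient.mk S.J (C ((l j - 1)⁻¹)) *
          (S.TQ l hS (Ideal.Quotient.mk S.J (X j)) - Ideal.Quotient.mk S.J (X j)) := by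
        rw [h1, ← mul_assoc, ← map_mul, ← map_mul C, inv_mul_cancel₀ (sub_ne_zero.2 hj), map_one,
          map_one, one_mul]
        rfl
      rw [h2]
      exact Ideal.mul_mem_left _ _ (Ideal.subset_span ⟨_, rfl⟩)
  have e2 : S.J ⊔ zI ℂ (fun j => l j ≠ 1) = (S.res (fun j => l j ≠ 1)).J := by
    apply le_antisymm
    · refine sup_le ?_ ?_
      · unfold J
        rw [Ideal.span_le]
        rintro _ ⟨i, rfl⟩
        by_cases hi : l i ≠ 1
        · have h1 : S.F i ∈ zI ℂ (fun j => l j ≠ 1) := mem_zI_of_weight (hS i) hi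
          have h2 : zI ℂ (fun j => l j ≠ 1) ≤ Ideal.span (Set.range (S.res (fun j => l j ≠ 1)).F) := by
            unfold zI
            rw [Ideal.span_le]
            rintro _ ⟨j, hj, rfl⟩
            refine Ideal.subset_span ⟨j, ?_⟩
            unfold res
            simp only [if_pos hj]
          exact h2 h1
        · refine Ideal.subset_span ⟨i, ?_⟩
          unfold res
          simp only [if_neg hi]
      · unfold zI J
        rw [Ideal.span_le]
        rintro _ ⟨j, hj, rfl⟩
        refine Ideal.subset_span ⟨j, ?_⟩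
        unfold res
        simp only [if_pos hj]
    · have : (S.res (fun j => l j ≠ 1)).J ≤ S.J ⊔ zI ℂ (fun j => l j ≠ 1) := by
        conv_lhs => unfold J
        rw [Ideal.span_le]
        rintro _ ⟨i, rfl⟩
        by_cases hi : l i ≠ 1
        · have : (S.res (fun j => l j ≠ 1)).F i = X i := by unfold res; simp only [if_pos hi]
          rw [this]
          exact Ideal.mem_sup_right (Ideal.subset_span ⟨i, hi, rfl⟩)
        · have : (S.res (fun j => l j ≠ 1)).F i = S.F i := by unfold res; simp only [if_neg hi]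
          rw [this]
          exact Ideal.mem_sup_left (S.F_mem i)
      exact this
  let E : (S.B ⧸ Red.fixIdeal (S.TQ l hS)) ≃ₐ[ℂ] (S.res (fun j => l j ≠ 1)).B :=
    ((Ideal.quotientEquivAlgOfEq ℂ e1).trans (DoubleQuot.quotQuotEquivQuotSupₐ ℂ S.J
      (zI ℂ (fun j => l j ≠ 1)))).trans (Ideal.quotientEquivAlgOfEq ℂ e2)
  have hE : ∀ p, E (Ideal.Quotient.mk _ (Ideal.Quotient.mk S.J p)) = Ideal.Quotient.mk _ p :=
    fun p => rfl
  rw [← LinearMap.trace_conj' _ E.toLinearEquiv]
  congr 1
  apply LinearMap.ext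
  intro y
  obtain ⟨x, rfl⟩ := E.surjective y
  rw [LinearEquiv.conj_apply_apply, LinearMap.mulLeft_apply, LinearMap.mulLeft_apply, ← hE]
  have : E.toLinearEquiv.symm (E x) = x := E.symm_apply_apply x
  rw [this]
  exact map_mul E _ _

end Sys

end Pool.Agent.Y462.Box
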