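import Pool.Agent.Y462.Diag

set_option autoImplicit false
set_option maxHeartbeats 1000000
set_option linter.unusedSectionVars false
set_option linter.style.haveILetI false

open MvPolynomial

namespace Pool.Agent.Y462.Box

variable {ι : Type*} {K L : Type*} [CommRing K] [CommRing L]

theorem Lt_C_mul {d : ℕ} (c : K) {p : MvPolynomial ι K} (hp : p ∈ Lt ι K d) :
    C c * p ∈ Lt ι K d := by
  rw [← MvPolynomial.smul_eq_C_mul]; exact Submodule.smul_mem _ _ hp

namespace Sys

variable {m : ℕ}

/-- the family connecting `S` (at `s = 0`) to `X_i ^ m - X_i` (at `s = 1`) -/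
noncomputable def fam (hm : 2 ≤ m) (s : K) (S : Sys ι K (fun _ => m)) : Sys ι K (fun _ => m) where
  F i := X i ^ m + C (1 - s) * (S.F i - X i ^ m) - C s * X i
  pos := S.pos
  lead i := by
    have e : X i ^ m + C (1 - s) * (S.F i - X i ^ m) - C s * X i - X i ^ m =
      C (1 - s) * (S.F i - X i ^ m) - C s * X i := by ring
    rw [e]
    refine Submodule.sub_mem _ (Lt_C_mul _ (S.lead i)) (Lt_C_mul _ ?_)
    refine monomial_mem _ ?_
    rw [Finsupp.degree_single]; omega

theorem fam_F (hm : 2 ≤ m) (s : K) (S : Sys ι K (fun _ => m)) (i : ι) :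
    (fam hm s S).F i = X i ^ m + C (1 - s) * (S.F i - X i ^ m) - C s * X i := rfl

theorem fam_map (hm : 2 ≤ m) (s : K) (S : Sys ι K (fun _ => m)) (φ : K →+* L) :
    (fam hm s S).map φ = fam hm (φ s) (S.map φ) := by
  apply ext'
  intro i
  rw [map_F, fam_F, fam_F, map_F]
  simp only [map_sub, map_add, map_mul, map_pow, map_X, map_C, map_one]

theorem fam_zero (hm : 2 ≤ m) (S : Sys ι K (fun _ => m)) : fam hm 0 S = S := by
  apply ext'
  intro i
  rw [fam_F, sub_zero, map_one, one_mul, map_zero, zero_mul]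
  ring

theorem fam_one (hm : 2 ≤ m) (S : Sys ι K (fun _ => m)) (i : ι) :
    (fam hm 1 S).F i = X i ^ m - X i := by
  rw [fam_F, sub_self, map_zero, map_one]
  ring

theorem fam_equiv (hm : 2 ≤ m) (s : K) {S : Sys ι K (fun _ => m)} {l : ι → K} (h : S.Equiv l)
    (hl : ∀ i, l i ^ m = l i) : (fam hm s S).Equiv l := by
  intro i
  have hC : ∀ c : K, TD l (C c) = C c := fun c => by
    unfold TD; rw [aeval_C, algebraMap_eq]
  rw [fam_F, map_sub, map_add, map_mul, map_mul, map_sub (TD l) (S.F i), h i, map_pow, TD_X,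
    mul_pow, ← C_pow, hl, hC, hC]
  ring

variable [Fintype ι] [DecidableEq ι] {M : ι → ℕ}

/-- the discriminant of the quotient algebra -/
noncomputable def disc (S : Sys ι K M) : K :=
  (Matrix.of fun α β : Bx M => LinearMap.trace K S.B (LinearMap.mulLeft K (S.qbas α * S.qbas β))).det

theorem disc_map (S : Sys ι K M) (φ : K →+* L) : (S.map φ).disc = φ S.disc := by
  unfold disc
  rw [RingHom.map_det]
  congr 1
  ext α β
  rw [RingHom.mapMatrix_apply, Matrix.map_apply, Matrix.of_apply, Matrix.of_apply]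
  apply trace_mapQ
  intro b
  rw [LinearMap.mulLeft_apply, LinearMap.mulLeft_apply, map_mul, map_mul, mapQ_qbas, mapQ_qbas]

theorem trace_mul_sum (S : Sys ι K M) (α : Bx M) (b : S.B) :
    LinearMap.trace K S.B (LinearMap.mulLeft K (S.qbas α * b)) =
      ∑ β, LinearMap.trace K S.B (LinearMap.mulLeft K (S.qbas α * S.qbas β)) * S.qbas.repr b β := by
  conv_lhs => rw [← S.qbas.sum_repr b]
  have h : LinearMap.mulLeft K (S.qbas α * ∑ i, (S.qbas.repr b) i • S.qbas i) =
      ∑ β, (S.qbas.repr b β) • LinearMap.mulLeft K (S.qbas α * S.qbas β) := by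
    apply LinearMap.ext
    intro x
    rw [LinearMap.mulLeft_apply, Finset.mul_sum, Finset.sum_mul, LinearMap.sum_apply]
    refine Finset.sum_congr rfl fun β _ => ?_
    rw [LinearMap.smul_apply, LinearMap.mulLeft_apply, mul_smul_comm, smul_mul_assoc]
  rw [h, map_sum]
  refine Finset.sum_congr rfl fun β _ => ?_
  rw [map_smul, smul_eq_mul, mul_comm]

theorem reduced_of_disc (S : Sys ι ℂ M) (h : S.disc ≠ 0) : IsReduced S.B := by
  constructor
  intro b hb
  by_contra hb0
  apply h
  unfold disc
  rw [← Matrix.exists_mulVec_eq_zero_iff]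
  refine ⟨fun β => S.qbas.repr b β, ?_, ?_⟩
  · intro h0
    apply hb0
    apply S.qbas.repr.injective
    rw [map_zero]
    ext β
    exact congrFun h0 β
  · funext α
    have h1 := S.trace_mul_sum α b
    have h2 : LinearMap.trace ℂ S.B (LinearMap.mulLeft ℂ (S.qbas α * b)) = 0 := by
      have hn : IsNilpotent (LinearMap.mulLeft ℂ (S.qbas α * b)) := by
        rw [LinearMap.isNilpotent_mulLeft_iff]
        exact (Commute.all _ _).isNilpotent_mul_left hb
      exact (LinearMap.isNilpotent_trace_of_isNilpotent hn).eq_zero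
    rw [h2] at h1
    simp only [Matrix.mulVec, dotProduct, Matrix.of_apply, Pi.zero_apply]
    exact h1.symm

/-- the trace form as a linear map -/
noncomputable def trf (S : Sys ι ℂ M) : S.B →ₗ[ℂ] ℂ :=
  (LinearMap.trace ℂ S.B) ∘ₗ (LinearMap.mul ℂ S.B)

theorem trf_apply (S : Sys ι ℂ M) (c : S.B) :
    trf S c = LinearMap.trace ℂ S.B (LinearMap.mulLeft ℂ c) := by
  have : LinearMap.mul ℂ S.B c = LinearMap.mulLeft ℂ c := by
    apply LinearMap.ext
    intro x
    rw [LinearMap.mul_apply', LinearMap.mulLeft_apply]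
  unfold trf
  rw [LinearMap.comp_apply, this]

theorem trace_zero (S : Sys ι ℂ M) (b : S.B)
    (h1 : ∀ α, LinearMap.trace ℂ S.B (LinearMap.mulLeft ℂ (S.qbas α * b)) = 0) (c : S.B) :
    LinearMap.trace ℂ S.B (LinearMap.mulLeft ℂ (c * b)) = 0 := by
  have h : (trf S) ∘ₗ (LinearMap.mulRight ℂ b) = 0 := by
    apply S.qbas.ext
    intro α
    rw [LinearMap.comp_apply, LinearMap.mulRight_apply, trf_apply, h1, LinearMap.zero_apply]
  have h3 := congrArg (fun f : S.B →ₗ[ℂ] ℂ => f c) h
  simp only [LinearMap.comp_apply, LinearMap.mulRight_apply, trf_apply, LinearMap.zero_apply] at h3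
  exact h3

theorem disc_ne_zero (S : Sys ι ℂ M) [IsReduced S.B] : S.disc ≠ 0 := by
  unfold disc
  intro h
  rw [← Matrix.exists_mulVec_eq_zero_iff] at h
  obtain ⟨v, hv0, hv⟩ := h
  classical
  set b : S.B := ∑ β, v β • S.qbas β with hb
  have hr : ∀ β, S.qbas.repr b β = v β := by
    intro β
    rw [hb, S.qbas.repr_sum_self]
  have h1 : ∀ α, LinearMap.trace ℂ S.B (LinearMap.mulLeft ℂ (S.qbas α * b)) = 0 := by
    intro α
    rw [trace_mul_sum]
    have := congrFun hv α
    simp only [Matrix.mulVec, dotProduct, Matrix.of_apply, Pi.zero_apply] at this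
    rw [← this]
    exact Finset.sum_congr rfl fun β _ => by rw [hr]
  have h2 : ∀ c, LinearMap.trace ℂ S.B (LinearMap.mulLeft ℂ (c * b)) = 0 := trace_zero S b h1
  have hb0 : b ≠ 0 := by
    intro h0
    apply hv0
    funext β
    rw [← hr, h0, map_zero]; rfl
  have h3 : Red.ev S.B b ≠ 0 := fun h => hb0 (Red.ev_injective (by rw [h, map_zero]))
  obtain ⟨p, hp⟩ := Function.ne_iff.1 h3
  obtain ⟨c, hc⟩ := Red.ev_surjective (B := S.B) (Pi.single p 1)
  letI := Fintype.ofFinite (S.B →ₐ[ℂ] ℂ)
  have h4 := Red.trace_aux (Red.ev S.B) ⟨Red.ev_injective, Red.ev_surjective⟩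
    (LinearMap.mulLeft ℂ (c * b)) (fun q => q (c * b)) id (by
      intro x q
      rw [LinearMap.mulLeft_apply, Red.ev_apply, Red.ev_apply, map_mul]
      rfl)
  rw [h2 c, finsum_eq_sum_of_fintype] at h4
  have h5 : ∀ q : {q : S.B →ₐ[ℂ] ℂ // id q = q}, q.1 (c * b) = if q.1 = p then p b else 0 := by
    intro q
    have : q.1 c = (Pi.single p (1 : ℂ) : (S.B →ₐ[ℂ] ℂ) → ℂ) q.1 := congrFun hc q.1
    rw [map_mul, this]
    split_ifs with hq
    · rw [hq, Pi.single_eq_same, one_mul]
    · rw [Pi.single_eq_of_ne hq, zero_mul]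
  simp_rw [h5] at h4
  rw [Finset.sum_eq_single (⟨p, rfl⟩ : {q : S.B →ₐ[ℂ] ℂ // id q = q})] at h4
  · rw [if_pos rfl] at h4
    exact hp h4.symm
  · intro q _ hq
    rw [if_neg]
    intro h; exact hq (Subtype.ext h)
  · intro h; exact absurd (Finset.mem_univ _) h

theorem reduced_one {m : ℕ} (hm : 2 ≤ m) (S : Sys ι ℂ (fun _ => m))
    (hF : ∀ i, S.F i = X i ^ m - X i) : IsReduced S.B := by
  classical
  have hcomm : ∀ a b : S.B, Commute (LinearMap.mulLeft ℂ a : Module.End ℂ S.B)
      (LinearMap.mulLeft ℂ b : Module.End ℂ S.B) := by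
    intro a b
    apply LinearMap.ext
    intro z
    rw [Module.End.mul_apply, Module.End.mul_apply, LinearMap.mulLeft_apply,
      LinearMap.mulLeft_apply, LinearMap.mulLeft_apply, LinearMap.mulLeft_apply, mul_left_comm]
  have hss : ∀ b : S.B, Module.End.IsSemisimple (LinearMap.mulLeft ℂ b) := by
    intro b
    obtain ⟨p, rfl⟩ := Ideal.Quotient.mk_surjective b
    induction p using MvPolynomial.induction_on with
    | C a =>
      refine Module.End.isSemisimple_of_squarefree_aeval_eq_zero
        (p := (Polynomial.X - Polynomial.C a)) (Polynomial.irreducible_X_sub_C a).squarefree ?_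
      rw [map_sub, Polynomial.aeval_X, Polynomial.aeval_C, sub_eq_zero]
      apply LinearMap.ext
      intro x
      obtain ⟨q, rfl⟩ := Ideal.Quotient.mk_surjective x
      rw [LinearMap.mulLeft_apply, Module.algebraMap_end_apply, ← map_mul]
      rw [← MvPolynomial.smul_eq_C_mul]
      rfl
    | add p q hp hq =>
      have : LinearMap.mulLeft ℂ (Ideal.Quotient.mk S.J (p + q)) =
        LinearMap.mulLeft ℂ (Ideal.Quotient.mk S.J p) +
        LinearMap.mulLeft ℂ (Ideal.Quotient.mk S.J q) := by
        apply LinearMap.ext; intro z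
        rw [map_add, LinearMap.add_apply, LinearMap.mulLeft_apply, LinearMap.mulLeft_apply,
          LinearMap.mulLeft_apply, add_mul]
      rw [this]
      refine Module.End.IsSemisimple.add_of_commute ?_ hp hq
      exact hcomm _ _
    | mul_X p i hp =>
      have : LinearMap.mulLeft ℂ (Ideal.Quotient.mk S.J (p * X i)) =
        LinearMap.mulLeft ℂ (Ideal.Quotient.mk S.J p) *
        LinearMap.mulLeft ℂ (Ideal.Quotient.mk S.J (X i)) := by
        apply LinearMap.ext; intro z
        rw [map_mul, LinearMap.mulLeft_apply, Module.End.mul_apply, LinearMap.mulLeft_apply,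
          LinearMap.mulLeft_apply, mul_assoc]
      rw [this]
      refine Module.End.IsSemisimple.mul_of_commute ?_ hp ?_
      · exact hcomm _ _
      · refine Module.End.isSemisimple_of_squarefree_aeval_eq_zero
          (p := (Polynomial.X ^ m - Polynomial.X : Polynomial ℂ)) ?_ ?_
        · apply Polynomial.Separable.squarefree
          have e : (Polynomial.X ^ m - Polynomial.X : Polynomial ℂ) =
            Polynomial.X * (Polynomial.X ^ (m - 1) - 1) := by
            obtain ⟨k, rfl⟩ : ∃ k, m = k + 1 := ⟨m - 1, by omega⟩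
            rw [Nat.add_sub_cancel, pow_succ]; ring
          rw [e]
          apply Polynomial.Separable.mul Polynomial.separable_X
          · have := Polynomial.separable_X_pow_sub_C (1 : ℂ) (n := m - 1)
              (by rw [Nat.cast_ne_zero]; omega) one_ne_zero
            rwa [map_one] at this
          · refine ⟨Polynomial.X ^ (m - 2), -1, ?_⟩
            have : Polynomial.X ^ (m - 1) = (Polynomial.X : Polynomial ℂ) ^ (m - 2) * Polynomial.X := by
              rw [← pow_succ]; congr 1; omega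
            rw [this]; ring
        · rw [map_sub, map_pow, Polynomial.aeval_X, sub_eq_zero, LinearMap.pow_mulLeft, ← map_pow]
          congr 1
          rw [← sub_eq_zero, ← map_sub, Ideal.Quotient.eq_zero_iff_mem, ← hF]
          exact S.F_mem i
  constructor
  intro b hb
  have hn : IsNilpotent (LinearMap.mulLeft ℂ b) := by
    rwa [LinearMap.isNilpotent_mulLeft_iff]
  have h0 := Module.End.eq_zero_of_isNilpotent_isSemisimple hn (hss b)
  have := congrArg (fun f : S.B →ₗ[ℂ] S.B => f 1) h0
  simpa using this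

open scoped Classical in
/-- **The trace identity in diagonal form.** -/
theorem trace_diag {m : ℕ} (hm : 2 ≤ m) (S : Sys ι ℂ (fun _ => m)) {l : ι → ℂ} (hS : S.Equiv l)
    (hl : ∀ i, l i ^ m = l i) (h : MvPolynomial ι ℂ) :
    LinearMap.trace ℂ S.B ((S.TQ l hS).toLinearMap ∘ₗ LinearMap.mulLeft ℂ (Ideal.Quotient.mk S.J h))
      = LinearMap.trace ℂ (S.res (fun j => l j ≠ 1)).B
        (LinearMap.mulLeft ℂ (Ideal.Quotient.mk (S.res (fun j => l j ≠ 1)).J h)) := by
  let c : ℂ →+* Polynomial ℂ := Polynomial.C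
  let SS : Sys ι (Polynomial ℂ) (fun _ => m) := fam hm Polynomial.X (S.map c)
  have hSS : SS.Equiv (fun j => c (l j)) := fam_equiv hm _ (hS.map c) (fun i => by rw [← map_pow, hl])
  let hh : MvPolynomial ι (Polynomial ℂ) := MvPolynomial.map c h
  let P : Polynomial ℂ := LinearMap.trace (Polynomial ℂ) SS.B
    ((SS.TQ _ hSS).toLinearMap ∘ₗ LinearMap.mulLeft (Polynomial ℂ) (Ideal.Quotient.mk SS.J hh))
  let Q : Polynomial ℂ := LinearMap.trace (Polynomial ℂ) (SS.res (fun j => l j ≠ 1)).B
    (LinearMap.mulLeft (Polynomial ℂ) (Ideal.Quotient.mk (SS.res (fun j => l j ≠ 1)).J hh))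
  have hevc : ∀ s : ℂ, ((Polynomial.evalRingHom s).comp c) = RingHom.id ℂ := by
    intro s; ext x; simp [c]
  have hmap : ∀ s : ℂ, SS.map (Polynomial.evalRingHom s) = fam hm s S := by
    intro s
    show (fam hm Polynomial.X (S.map c)).map (Polynomial.evalRingHom s) = _
    rw [fam_map]
    have h1 : (S.map c).map (Polynomial.evalRingHom s) = S := by
      apply ext'
      intro i
      rw [map_F, map_F, MvPolynomial.map_map, hevc, MvPolynomial.map_id]
    rw [h1]
    congr 1
    simp
  have hhmap : ∀ s : ℂ, MvPolynomial.map (Polynomial.evalRingHom s) hh = h := by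
    intro s
    show MvPolynomial.map (Polynomial.evalRingHom s) (MvPolynomial.map c h) = h
    rw [MvPolynomial.map_map, hevc, MvPolynomial.map_id]
  have hlmap : ∀ s : ℂ, (fun j => Polynomial.evalRingHom s (c (l j))) = l := by
    intro s; funext j; simp [c]
  -- evaluation of `P`
  have hP : ∀ (s : ℂ) (S' : Sys ι ℂ (fun _ => m)) (hS' : S'.Equiv l),
      SS.map (Polynomial.evalRingHom s) = S' → P.eval s = LinearMap.trace ℂ S'.B
        ((S'.TQ l hS').toLinearMap ∘ₗ LinearMap.mulLeft ℂ (Ideal.Quotient.mk S'.J h)) := by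
    rintro s S' hS' rfl
    symm
    apply trace_mapQ (Polynomial.evalRingHom s) SS
    intro b
    obtain ⟨p, rfl⟩ := Ideal.Quotient.mk_surjective b
    rw [LinearMap.comp_apply, LinearMap.mulLeft_apply, mapQ_mk, LinearMap.comp_apply,
      LinearMap.mulLeft_apply, ← map_mul, ← map_mul, AlgHom.toLinearMap_apply, TQ_mk, mapQ_mk,
      TD_map, map_mul (MvPolynomial.map (Polynomial.evalRingHom s)), hhmap, hlmap]
    rfl
  have hQ : ∀ (s : ℂ) (S' : Sys ι ℂ (fun _ => m)),
      SS.map (Polynomial.evalRingHom s) = S' → Q.eval s =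
        LinearMap.trace ℂ (S'.res (fun j => l j ≠ 1)).B
        (LinearMap.mulLeft ℂ (Ideal.Quotient.mk (S'.res (fun j => l j ≠ 1)).J h)) := by
    rintro s S' rfl
    rw [res_map]
    symm
    apply trace_mapQ (Polynomial.evalRingHom s) (SS.res (fun j => l j ≠ 1))
    intro b
    obtain ⟨p, rfl⟩ := Ideal.Quotient.mk_surjective b
    rw [LinearMap.mulLeft_apply, mapQ_mk, LinearMap.mulLeft_apply, ← map_mul, mapQ_mk,
      map_mul (MvPolynomial.map (Polynomial.evalRingHom s)), hhmap, ← map_mul]
  have hD : ∀ s : ℂ, SS.disc.eval s = (fam hm s S).disc := by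
    intro s
    rw [← hmap, disc_map]
    rfl
  have hD0 : SS.disc ≠ 0 := by
    intro h0
    have hz : (fam hm 1 S).disc = 0 := by rw [← hD, h0, Polynomial.eval_zero]
    haveI := reduced_one hm (fam hm 1 S) (fam_one hm S)
    exact disc_ne_zero (fam hm 1 S) hz
  have hPQ : (P - Q) * SS.disc = 0 := by
    apply Polynomial.funext
    intro s
    rw [Polynomial.eval_mul, Polynomial.eval_sub, Polynomial.eval_zero]
    by_cases hd : SS.disc.eval s = 0
    · rw [hd, mul_zero]
    · rw [hD] at hd
      haveI := reduced_of_disc _ hd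
      have hE := fam_equiv hm s hS hl
      rw [hP s _ hE (hmap s), hQ s _ (hmap s), trace_eq_of_reduced _ hE, sub_self, zero_mul]
  have hPQ' : P = Q := by
    rcases mul_eq_zero.1 hPQ with h | h
    · exact sub_eq_zero.1 h
    · exact absurd h hD0
  have h0 : SS.map (Polynomial.evalRingHom 0) = S := by rw [hmap, fam_zero]
  rw [← hP 0 S hS h0, ← hQ 0 S h0, hPQ']

end Sys

end Pool.Agent.Y462.Box
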