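import Pool.Agent.Y462.Family

set_option autoImplicit false
set_option linter.unusedSectionVars false
set_option linter.style.haveILetI false

open MvPolynomial

namespace Pool.Agent.Y462.Germ

/-! ### Diagonalisation of a matrix of finite order -/

theorem exists_diag {n : ℕ} (R : Matrix (Fin n) (Fin n) ℂ) {k : ℕ} (hk : 0 < k) (hR : R ^ k = 1) :
    ∃ (Q : Matrix (Fin n) (Fin n) ℂ) (l : Fin n → ℂ), IsUnit Q.det ∧
      Q * R = Matrix.diagonal l * Q ∧ ∀ i, l i ^ k = 1 := by
  classical
  let φ : Module.End ℂ (Fin n → ℂ) := Matrix.toLin' R.transpose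
  have hφ : φ ^ k = 1 := by
    show (Matrix.toLin' R.transpose) ^ k = 1
    rw [← Matrix.toLin'_pow, ← Matrix.transpose_pow, hR, Matrix.transpose_one, Matrix.toLin'_one]
    rfl
  have hss : φ.IsSemisimple := by
    refine Module.End.isSemisimple_of_squarefree_aeval_eq_zero
      (p := (Polynomial.X ^ k - Polynomial.C 1 : Polynomial ℂ)) ?_ ?_
    · exact (Polynomial.separable_X_pow_sub_C (1 : ℂ) (by exact_mod_cast hk.ne')
        one_ne_zero).squarefree
    · rw [map_sub, map_pow, Polynomial.aeval_X, hφ, map_one, map_one, sub_self]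
  have htop := hss.iSup_eigenspace_eq_top
  let s : Set (Fin n → ℂ) := {v | ∃ μ : ℂ, v ∈ φ.eigenspace μ}
  have hs : Submodule.span ℂ s = ⊤ := by
    rw [eq_top_iff, ← htop]
    refine iSup_le fun μ v hv => Submodule.subset_span ⟨μ, hv⟩
  obtain ⟨b, hbs, hbspan, hbli⟩ := exists_linearIndependent ℂ s
  rw [hs] at hbspan
  let B0 : Module.Basis b ℂ (Fin n → ℂ) := Module.Basis.mk hbli (by rw [Subtype.range_coe]; exact hbspan.ge)
  have hcard : Nat.card b = n := by
    have := Module.finrank_eq_nat_card_basis B0
    rw [Module.finrank_fin_fun] at this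
    exact this.symm
  haveI : Finite b := Module.Finite.finite_basis B0
  letI : Fintype b := Fintype.ofFinite b
  let e : b ≃ Fin n := (Fintype.equivFinOfCardEq (by rw [← Nat.card_eq_fintype_card]; exact hcard))
  let B : Module.Basis (Fin n) ℂ (Fin n → ℂ) := B0.reindex e
  have hB : ∀ i, B i ∈ s := by
    intro i
    show B0.reindex e i ∈ s
    rw [Module.Basis.reindex_apply, Module.Basis.mk_apply]
    exact hbs (e.symm i).2
  choose l hl using hB
  have hl' : ∀ i, Matrix.mulVec R.transpose (B i) = l i • B i := by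
    intro i
    have := Module.End.mem_eigenspace_iff.1 (hl i)
    rwa [Matrix.toLin'_apply] at this
  refine ⟨Matrix.of fun i j => B i j, l, ?_, ?_, ?_⟩
  · have h1 : (Matrix.of fun i j => B i j) = ((Pi.basisFun ℂ (Fin n)).toMatrix B).transpose := by
      ext i j
      rw [Matrix.of_apply, Matrix.transpose_apply, Module.Basis.toMatrix_apply, Pi.basisFun_repr]
    rw [h1, Matrix.det_transpose, ← Matrix.isUnit_iff_isUnit_det]
    letI := (Pi.basisFun ℂ (Fin n)).invertibleToMatrix B
    exact isUnit_of_invertible _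
  · ext i j
    have := congrFun (hl' i) j
    rw [Matrix.mulVec_transpose] at this
    rw [Matrix.diagonal_mul, Matrix.of_apply, Matrix.mul_apply]
    simpa [Matrix.vecMul, dotProduct] using this
  · intro i
    have h1 : ∀ j : ℕ, (φ ^ j) (B i) = (l i ^ j) • B i := by
      intro j
      induction j with
      | zero => simp
      | succ j ih =>
        have : φ (B i) = l i • B i := by
          show Matrix.toLin' R.transpose (B i) = _
          rw [Matrix.toLin'_apply]; exact hl' i
        rw [pow_succ, Module.End.mul_apply, this, map_smul, ih, smul_smul, pow_succ, mul_comm]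
    have h2 := h1 k
    rw [hφ, Module.End.one_apply] at h2
    have h3 : (l i ^ k - 1) • B i = 0 := by rw [sub_smul, one_smul, ← h2, sub_self]
    rcases smul_eq_zero.1 h3 with h | h
    · exact sub_eq_zero.1 h
    · exact absurd h (B.ne_zero i)

/-! ### Power series -/

variable {n : ℕ}

abbrev PS (n : ℕ) := MvPowerSeries (Fin n) ℂ

/-- the ideal generated by the variables -/
noncomputable def mm (n : ℕ) : Ideal (PS n) := Ideal.span (Set.range (MvPowerSeries.X))

theorem mem_mm (g : PS n) (h : MvPowerSeries.constantCoeff g = 0) : g ∈ mm n := by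
  classical
  let part : Fin n → PS n := fun j m =>
    if m j ≠ 0 ∧ ∀ i < j, m i = 0 then MvPowerSeries.coeff m g else 0
  have hc : ∀ j m, MvPowerSeries.coeff m (part j) =
      if m j ≠ 0 ∧ ∀ i < j, m i = 0 then MvPowerSeries.coeff m g else 0 := fun _ _ => rfl
  have hsum : g = ∑ j, part j := by
    ext m
    rw [map_sum]
    simp_rw [hc]
    by_cases hm : m = 0
    · rw [Finset.sum_eq_zero]
      · rw [hm]; exact h
      · intro j _
        rw [if_neg]
        rintro ⟨h1, -⟩
        exact h1 (by rw [hm]; rfl)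
    · have hne : m.support.Nonempty := Finsupp.support_nonempty_iff.2 hm
      let j0 := m.support.min' hne
      have hj0 : m j0 ≠ 0 := Finsupp.mem_support_iff.1 (m.support.min'_mem hne)
      have hlt : ∀ i < j0, m i = 0 := by
        intro i hi
        by_contra hcon
        exact absurd (m.support.min'_le i (Finsupp.mem_support_iff.2 hcon)) (not_le.2 hi)
      rw [Finset.sum_eq_single j0]
      · rw [if_pos ⟨hj0, hlt⟩]
      · intro j _ hj
        rw [if_neg]
        rintro ⟨h1, h2⟩
        rcases lt_or_gt_of_ne hj with h3 | h3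
        · exact h1 (hlt j h3)
        · exact hj0 (h2 j0 h3)
      · intro h; exact absurd (Finset.mem_univ _) h
  rw [hsum]
  refine Ideal.sum_mem _ fun j _ => ?_
  have : (MvPowerSeries.X j : PS n) ∣ part j := by
    rw [MvPowerSeries.X_dvd_iff]
    intro m hm
    rw [hc, if_neg]
    rintro ⟨h1, -⟩
    exact h1 hm
  exact Ideal.mem_of_dvd _ this (Ideal.subset_span ⟨j, rfl⟩)

/-- the inclusion of polynomials in power series -/
noncomputable def cc (n : ℕ) : MvPolynomial (Fin n) ℂ →ₐ[ℂ] PS n := coeToMvPowerSeries.algHom ℂ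

theorem cc_apply (p : MvPolynomial (Fin n) ℂ) : cc n p = (p : PS n) := by
  unfold cc
  rw [coeToMvPowerSeries.algHom_apply]
  ext m
  simp

theorem cc_X (i : Fin n) : cc n (X i) = MvPowerSeries.X i := by
  rw [cc_apply, MvPolynomial.coe_X]

theorem coeff_cc (p : MvPolynomial (Fin n) ℂ) (m : Fin n →₀ ℕ) :
    MvPowerSeries.coeff m (cc n p) = coeff m p := by
  rw [cc_apply, MvPolynomial.coeff_coe]

theorem exists_poly (N : ℕ) (g : PS n) : ∃ t : MvPolynomial (Fin n) ℂ, g - cc n t ∈ mm n ^ N := by
  induction N generalizing g with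
  | zero => exact ⟨0, by rw [pow_zero, Ideal.one_eq_top]; exact Submodule.mem_top⟩
  | succ N ih =>
    have h1 : g - cc n (C (MvPowerSeries.constantCoeff g)) ∈ mm n := by
      apply mem_mm
      rw [map_sub, ← MvPowerSeries.coeff_zero_eq_constantCoeff_apply (cc n _), coeff_cc]
      simp
    unfold mm at h1
    rw [Ideal.mem_span_range_iff_exists_fun] at h1
    obtain ⟨c, hc⟩ := h1
    choose t ht using fun i => ih (c i)
    refine ⟨C (MvPowerSeries.constantCoeff g) + ∑ i, t i * X i, ?_⟩
    have : g - cc n (C (MvPowerSeries.constantCoeff g) + ∑ i, t i * X i) =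
        ∑ i, (c i - cc n (t i)) * MvPowerSeries.X i := by
      rw [map_add, ← sub_sub, ← hc, map_sum, ← Finset.sum_sub_distrib]
      refine Finset.sum_congr rfl fun i _ => ?_
      rw [map_mul, cc_X, sub_mul]
    rw [this]
    refine Ideal.sum_mem _ fun i _ => ?_
    rw [pow_succ]
    exact Ideal.mul_mem_mul (ht i) (Ideal.subset_span ⟨i, rfl⟩)

/-- coefficients of elements of `mm ^ N` -/
theorem coeff_mm {N : ℕ} {g : PS n} (h : g ∈ mm n ^ N) {m : Fin n →₀ ℕ} (hm : m.degree < N) :
    MvPowerSeries.coeff m g = 0 := by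
  classical
  induction N generalizing g m with
  | zero => exact absurd hm (Nat.not_lt_zero _)
  | succ N ih =>
    rw [pow_succ] at h
    refine Submodule.mul_induction_on (C := fun g => ∀ m : Fin n →₀ ℕ, m.degree < N + 1 →
      MvPowerSeries.coeff m g = 0) h ?_ ?_ m hm
    · intro a ha b hb m hm
      have hb0 : MvPowerSeries.constantCoeff b = 0 := by
        refine Submodule.span_induction (p := fun b _ => MvPowerSeries.constantCoeff b = 0)
          ?_ ?_ ?_ ?_ hb
        · rintro _ ⟨i, rfl⟩; exact MvPowerSeries.constantCoeff_X i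
        · exact map_zero _
        · intro x y _ _ hx hy; rw [map_add, hx, hy, add_zero]
        · intro c x _ hx; rw [smul_eq_mul, map_mul, hx, mul_zero]
      rw [MvPowerSeries.coeff_mul]
      refine Finset.sum_eq_zero fun x hx => ?_
      rw [Finset.HasAntidiagonal.mem_antidiagonal] at hx
      by_cases h2 : x.2 = 0
      · rw [h2, MvPowerSeries.coeff_zero_eq_constantCoeff_apply, hb0, mul_zero]
      · have h3 : x.1.degree < N := by
          have h4 : x.1.degree + x.2.degree = m.degree := by rw [← map_add, hx]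
          have h5 : x.2.degree ≠ 0 := by
            rw [Ne, Finsupp.degree_eq_zero_iff]; exact h2
          omega
        rw [ih ha h3, zero_mul]
    · intro x y hx hy m hm
      rw [map_add, hx m hm, hy m hm, add_zero]

/-- an ideal of finite codimension contains a power of the maximal ideal -/
theorem exists_pow_le (I : Ideal (PS n)) (hI : Module.Finite ℂ (PS n ⧸ I)) :
    ∃ N, mm n ^ N ≤ I := by
  haveI : IsArtinianRing (PS n ⧸ I) := IsArtinianRing.of_finite ℂ _
  have h1 : (mm n).map (Ideal.Quotient.mk I) ≤ Ideal.jacobson ⊥ := by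
    rw [Ideal.map_le_iff_le_comap]
    intro x hx
    rw [Ideal.mem_comap, Ideal.mem_jacobson_bot]
    intro y
    obtain ⟨y, rfl⟩ := Ideal.Quotient.mk_surjective y
    rw [← map_mul, ← map_one (Ideal.Quotient.mk I), ← map_add]
    apply IsUnit.map
    rw [MvPowerSeries.isUnit_iff_constantCoeff, map_add, map_mul, map_one]
    have : MvPowerSeries.constantCoeff x = 0 := by
      rw [← MvPowerSeries.coeff_zero_eq_constantCoeff_apply]
      refine coeff_mm (N := 1) ?_ ?_
      · rwa [pow_one]
      · rw [map_zero]; exact Nat.one_pos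
    rw [this, zero_mul, zero_add]
    exact isUnit_one
  obtain ⟨N, hN⟩ := IsArtinianRing.isNilpotent_jacobson_bot (R := PS n ⧸ I)
  refine ⟨N, ?_⟩
  have h2 : ((mm n) ^ N).map (Ideal.Quotient.mk I) = ⊥ := by
    rw [Ideal.map_pow, eq_bot_iff]
    calc _ ≤ (Ideal.jacobson (⊥ : Ideal (PS n ⧸ I))) ^ N := Ideal.pow_right_mono h1 N
      _ = ⊥ := hN
  rw [Ideal.map_eq_bot_iff_le_ker, Ideal.mk_ker] at h2
  exact h2

end Pool.Agent.Y462.Germ
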