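import Pool.Agent.Y462.Germ1

set_option autoImplicit false
set_option linter.unusedSectionVars false
set_option linter.style.haveILetI false

open MvPolynomial

namespace Pool.Agent.Y462.Germ

open Box

/-! ### Linear substitutions -/

variable {n : ℕ}

/-- the linear substitution `X_i ↦ ∑ M_ij X_j` -/
noncomputable def lin (M : Matrix (Fin n) (Fin n) ℂ) :
    MvPolynomial (Fin n) ℂ →ₐ[ℂ] MvPolynomial (Fin n) ℂ :=
  aeval fun i => ∑ j, M i j • X j

theorem lin_X (M : Matrix (Fin n) (Fin n) ℂ) (i : Fin n) : lin M (X i) = ∑ j, M i j • X j := by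
  unfold lin; rw [aeval_X]

theorem lin_lin (M M' : Matrix (Fin n) (Fin n) ℂ) (p : MvPolynomial (Fin n) ℂ) :
    lin M (lin M' p) = lin (M' * M) p := by
  have : (lin M).comp (lin M') = lin (M' * M) := by
    apply MvPolynomial.algHom_ext
    intro i
    rw [AlgHom.comp_apply, lin_X, lin_X, map_sum]
    simp_rw [map_smul, lin_X, Finset.smul_sum, smul_smul]
    rw [Finset.sum_comm]
    refine Finset.sum_congr rfl fun j _ => ?_
    rw [Matrix.mul_apply, Finset.sum_smul]
  exact congrArg (fun f : MvPolynomial (Fin n) ℂ →ₐ[ℂ] MvPolynomial (Fin n) ℂ => f p) this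

theorem lin_one (p : MvPolynomial (Fin n) ℂ) : lin 1 p = p := by
  have : lin (1 : Matrix (Fin n) (Fin n) ℂ) = AlgHom.id ℂ _ := by
    apply MvPolynomial.algHom_ext
    intro i
    rw [lin_X, Finset.sum_eq_single i]
    · rw [Matrix.one_apply_eq, one_smul]; rfl
    · intro j _ hj; rw [Matrix.one_apply_ne (Ne.symm hj), zero_smul]
    · intro h; exact absurd (Finset.mem_univ _) h
  rw [this]; rfl

theorem TD_eq_lin (l : Fin n → ℂ) (p : MvPolynomial (Fin n) ℂ) :
    TD l p = lin (Matrix.diagonal l) p := by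
  have : TD l = lin (Matrix.diagonal l) := by
    apply MvPolynomial.algHom_ext
    intro i
    rw [lin_X, TD_X, Finset.sum_eq_single i]
    · rw [Matrix.diagonal_apply_eq, MvPolynomial.smul_eq_C_mul]
    · intro j _ hj; rw [Matrix.diagonal_apply_ne _ (Ne.symm hj), zero_smul]
    · intro h; exact absurd (Finset.mem_univ _) h
  rw [this]

theorem lin_mem_pow (M : Matrix (Fin n) (Fin n) ℂ) {N : ℕ} {p : MvPolynomial (Fin n) ℂ}
    (hp : p ∈ idealOfVars (Fin n) ℂ ^ N) : lin M p ∈ idealOfVars (Fin n) ℂ ^ N := by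
  have h1 : (idealOfVars (Fin n) ℂ).map (lin M) ≤ idealOfVars (Fin n) ℂ := by
    rw [Ideal.map_le_iff_le_comap]
    unfold idealOfVars
    rw [Ideal.span_le]
    rintro _ ⟨i, rfl⟩
    rw [SetLike.mem_coe, Ideal.mem_comap, lin_X]
    refine Ideal.sum_mem _ fun j _ => ?_
    rw [MvPolynomial.smul_eq_C_mul]
    exact Ideal.mul_mem_left _ _ (Ideal.subset_span ⟨j, rfl⟩)
  have h2 := Ideal.mem_map_of_mem (lin M) hp
  rw [Ideal.map_pow] at h2
  exact Ideal.pow_right_mono h1 N h2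

/-! ### A trace lemma -/

theorem trace_of_surj {V W : Type*} [AddCommGroup V] [Module ℂ V] [Module.Finite ℂ V]
    [AddCommGroup W] [Module ℂ W] [Module.Finite ℂ W] (β : V →ₗ[ℂ] W)
    (hβ : Function.Surjective β) (φ : V →ₗ[ℂ] V) (hφ : ∀ x, β x = 0 → φ x = 0)
    (T : W →ₗ[ℂ] W) (hT : ∀ x, β (φ x) = T (β x)) :
    LinearMap.trace ℂ V φ = LinearMap.trace ℂ W T := by
  obtain ⟨s, hs⟩ := β.exists_rightInverse_of_surjective (LinearMap.range_eq_top.2 hβ)
  have h1 : φ = (φ ∘ₗ s) ∘ₗ β := by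
    apply LinearMap.ext
    intro x
    rw [LinearMap.comp_apply, LinearMap.comp_apply, ← sub_eq_zero, ← map_sub]
    apply hφ
    rw [map_sub, sub_eq_zero]
    exact (congrArg (fun f : W →ₗ[ℂ] W => f (β x)) hs).symm
  have h2 : β ∘ₗ (φ ∘ₗ s) = T := by
    apply LinearMap.ext
    intro y
    rw [LinearMap.comp_apply, LinearMap.comp_apply, hT]
    exact congrArg (fun f : W →ₗ[ℂ] W => T (f y)) hs
  rw [h1, LinearMap.trace_comp_comm', h2]

open scoped Classical in
theorem J_le_res {m : ℕ} {ι : Type*} (S : Sys ι ℂ (fun _ => m)) {l : ι → ℂ} (hS : S.Equiv l) :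
    S.J ≤ (S.res (fun j => l j ≠ 1)).J := by
  unfold Sys.J
  rw [Ideal.span_le]
  rintro _ ⟨i, rfl⟩
  by_cases hi : l i ≠ 1
  · have h1 : S.F i ∈ zI ℂ (fun j => l j ≠ 1) := mem_zI_of_weight (hS i) hi
    have h2 : zI ℂ (fun j => l j ≠ 1) ≤ Ideal.span (Set.range (S.res (fun j => l j ≠ 1)).F) := by
      unfold zI
      rw [Ideal.span_le]
      rintro _ ⟨j, hj, rfl⟩
      refine Ideal.subset_span ⟨j, ?_⟩
      unfold Sys.res
      simp only [if_pos hj]
    exact h2 h1
  · refine Ideal.subset_span ⟨i, ?_⟩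
    unfold Sys.res
    simp only [if_neg hi]

end Pool.Agent.Y462.Germ
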